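import Pool.Agent.Helper20.KP.StH

set_option autoImplicit false

namespace Pool.Agent.Helper81.KP

open MeasureTheory Filter Pool.Agent.Helper52.KP Pool.Agent.Helper20.KP
open scoped Topology

private theorem hom_ev {m n : ℕ} (Q : MvPolynomial (Fin m) ℂ) (h : Q.IsHomogeneous n) (c : ℂ)
    (y : Fin m → ℂ) : ev Q (c • y) = c ^ n * ev Q y := by
  simp only [ev]
  rw [MvPolynomial.eval_eq', MvPolynomial.eval_eq', Finset.mul_sum]
  refine Finset.sum_congr rfl fun d hd => ?_
  have h1 := h (MvPolynomial.mem_support_iff.1 hd)
  have h2 : ∑ i, d i = n := by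
    rw [← h1, Finsupp.weight_apply, Finsupp.sum_fintype _ _ (fun i => by simp)]
    simp
  simp only [Pi.smul_apply, smul_eq_mul, mul_pow, Finset.prod_mul_distrib]
  rw [Finset.prod_pow_eq_pow_sum, h2]
  ring

private theorem ev_bind {m : ℕ} (c : ℂ) (P : MvPolynomial (Fin m) ℂ) (y : Fin m → ℂ) :
    ev (MvPolynomial.bind₁ (fun j => MvPolynomial.C c * MvPolynomial.X j) P) y = ev P (c • y) := by
  simp only [ev]
  rw [← MvPolynomial.coe_aeval_eq_eval, ← MvPolynomial.coe_aeval_eq_eval]
  simp only [RingHom.coe_coe]
  rw [MvPolynomial.aeval_bind₁]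
  congr 2
  funext j
  simp

private theorem hom_of_scale {m e : ℕ} (P : MvPolynomial (Fin m) ℂ)
    (h : ∀ c : ℂ, c ≠ 0 → ∀ y, ev P (c • y) = c ^ e * ev P y) : P.IsHomogeneous e := by
  have h1 : ∀ n, n ≠ e → MvPolynomial.homogeneousComponent n P = 0 := by
    intro n hn
    by_cases hnD : n ∈ Finset.range (P.totalDegree + 1)
    · apply MvPolynomial.funext
      intro y
      rw [map_zero]
      set p : Polynomial ℂ := (∑ i ∈ Finset.range (P.totalDegree + 1),
        Polynomial.C (ev (MvPolynomial.homogeneousComponent i P) y) * Polynomial.X ^ i) -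
          Polynomial.C (ev P y) * Polynomial.X ^ e with hp
      have h2 : p = 0 := by
        refine Polynomial.eq_zero_of_infinite_isRoot p ?_
        refine Set.Infinite.mono (s := {0}ᶜ) ?_ ?_
        · intro c hc
          simp only [Set.mem_compl_iff, Set.mem_singleton_iff] at hc
          show p.eval c = 0
          have h3 := h c hc y
          have h4 : ev P (c • y) = ∑ i ∈ Finset.range (P.totalDegree + 1),
              c ^ i * ev (MvPolynomial.homogeneousComponent i P) y := by
            conv_lhs => rw [← MvPolynomial.sum_homogeneousComponent P]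
            simp only [ev, map_sum]
            refine Finset.sum_congr rfl fun i _ => ?_
            exact hom_ev _ (MvPolynomial.homogeneousComponent_isHomogeneous i P) c y
          rw [hp, Polynomial.eval_sub, Polynomial.eval_finset_sum]
          simp only [Polynomial.eval_mul, Polynomial.eval_C, Polynomial.eval_pow, Polynomial.eval_X]
          rw [sub_eq_zero, mul_comm (ev P y), ← h3, h4]
          refine Finset.sum_congr rfl fun i _ => ?_
          ring
        · exact (Set.finite_singleton (0 : ℂ)).infinite_compl
      have h5 := congrArg (fun q => Polynomial.coeff q n) h2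
      simp only [hp, Polynomial.coeff_sub, Polynomial.finset_sum_coeff,
        Polynomial.coeff_C_mul_X_pow, Polynomial.coeff_zero] at h5
      rw [if_neg hn, sub_zero, Finset.sum_ite_eq, if_pos hnD] at h5
      exact h5
    · apply MvPolynomial.homogeneousComponent_eq_zero
      simp only [Finset.mem_range, not_lt] at hnD
      omega
  have h2 : P = MvPolynomial.homogeneousComponent e P := by
    conv_lhs => rw [← MvPolynomial.sum_homogeneousComponent P]
    by_cases he : e ∈ Finset.range (P.totalDegree + 1)
    · exact Finset.sum_eq_single_of_mem e he fun n _ hn => h1 n hn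
    · rw [MvPolynomial.homogeneousComponent_eq_zero e P (by
        simp only [Finset.mem_range, not_lt] at he
        omega)]
      exact Finset.sum_eq_zero fun n hn => h1 n fun hne => he (hne ▸ hn)
  rw [h2]
  exact MvPolynomial.homogeneousComponent_isHomogeneous e P

/-- MODULE HPL -/
theorem hHPL (hHCO : StHCO) (hHLN : StHLN) (hHSE : StHSE) (hNUL : StNUL) : StHPL := by
  intro D hD Y Dc rd hFB k F hF hk i hi
  obtain ⟨c1, -, c3⟩ := hHCO D hD Y Dc rd hFB F hF
  set V : Set (Fin D.m → ℂ) := {y | ev Dc y ≠ 0} with hV
  have hVo : IsOpen V := by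
    have : V = (fun z => ev Dc z) ⁻¹' {0}ᶜ := rfl
    rw [this]
    exact isOpen_compl_singleton.preimage (MvPolynomial.continuous_eval Dc)
  have hV0 : volume Vᶜ = 0 := by
    have : Vᶜ = {z | ev Dc z = 0} := by
      ext z
      simp [hV]
    rw [this]
    exact hNUL _ Dc hFB.D0
  have hr : (volume : Measure (Fin D.m → ℂ)).restrict V = volume :=
    Measure.restrict_eq_self_of_ae_mem (by
      rw [ae_iff]
      exact hV0)
  have fc : ContinuousOn (D.co Y F i) V := (c1 i).continuousOn
  have fm : AEStronglyMeasurable (D.co Y F i) volume := by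
    have := fc.aestronglyMeasurable (μ := volume) hVo.measurableSet
    rwa [hr] at this
  obtain ⟨P, hP⟩ := hHSE D.m (k * (rd - i)) (D.co Y F i) fm
    (hHLN D hD Y Dc rd hFB k F hF hk i hi)
  have eqV : ∀ y ∈ V, D.co Y F i y = ev P y := by
    have := Measure.eqOn_open_of_ae_eq (μ := volume) (f := D.co Y F i) (g := fun y => ev P y)
      (by rw [hr]; exact hP) hVo fc (MvPolynomial.continuous_eval P).continuousOn
    exact fun y hy => this hy
  refine ⟨P, hom_of_scale P fun c hc y => ?_, eqV⟩
  set B := MvPolynomial.bind₁ (fun j : Fin D.m => MvPolynomial.C c * MvPolynomial.X j) with hB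
  have h1 : B Dc ≠ 0 := by
    intro h0
    apply hFB.D0
    apply MvPolynomial.funext
    intro z
    have h2 := ev_bind c Dc (c⁻¹ • z)
    rw [← hB, h0, smul_smul, mul_inv_cancel₀ hc, one_smul] at h2
    simp only [ev, map_zero] at h2 ⊢
    exact h2.symm
  have h3 : Dc * (B Dc * (B P - MvPolynomial.C (c ^ (k * (rd - i))) * P)) = 0 := by
    apply MvPolynomial.funext
    intro z
    rw [map_mul, map_mul, map_zero]
    by_cases hz : MvPolynomial.eval z Dc = 0
    · rw [hz, zero_mul]
    · by_cases hz' : MvPolynomial.eval z (B Dc) = 0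
      · rw [hz', zero_mul, mul_zero]
      · have e1 : ev (B P) z = ev P (c • z) := ev_bind c P z
        have e2 : ev (B Dc) z = ev Dc (c • z) := ev_bind c Dc z
        have e3 : ev Dc (c • z) ≠ 0 := by
          rw [← e2]
          exact hz'
        have e4 := c3 k hk z hz c hc i hi
        rw [eqV _ e3, eqV _ hz] at e4
        have e5 : MvPolynomial.eval z (B P - MvPolynomial.C (c ^ (k * (rd - i))) * P) = 0 := by
          rw [map_sub, map_mul, MvPolynomial.eval_C, sub_eq_zero]
          exact e1.trans e4
        rw [e5, mul_zero, mul_zero]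
  have h4 : B P - MvPolynomial.C (c ^ (k * (rd - i))) * P = 0 := by
    rcases mul_eq_zero.1 h3 with h | h
    · exact absurd h hFB.D0
    · rcases mul_eq_zero.1 h with h | h
      · exact absurd h h1
      · exact h
  have h5 := congrArg (MvPolynomial.eval y) h4
  rw [map_sub, map_mul, MvPolynomial.eval_C, map_zero, sub_eq_zero] at h5
  have e1 : ev (B P) y = ev P (c • y) := ev_bind c P y
  rw [← e1]
  exact h5

end Pool.Agent.Helper81.KP
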