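import Pool.Agent.Helper81.KP.CmpB

set_option autoImplicit false

namespace Pool.Agent.Helper81.KP

open MeasureTheory Filter Pool.Agent.Helper52.KP
open scoped ContDiff ComplexOrder Topology

theorem hf_add {m : ℕ} (A B : Matrix (Fin m) (Fin m) ℂ) (ξ : Fin m → ℂ) :
    hf (A + B) ξ = hf A ξ + hf B ξ := by
  unfold hf
  rw [← Complex.add_re, ← Finset.sum_add_distrib]
  congr 1
  refine Finset.sum_congr rfl fun j _ => ?_
  rw [← Finset.sum_add_distrib]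
  refine Finset.sum_congr rfl fun k _ => ?_
  rw [Matrix.add_apply]
  ring

theorem hf_smul {m : ℕ} (s : ℝ) (A : Matrix (Fin m) (Fin m) ℂ) (ξ : Fin m → ℂ) :
    hf ((s : ℂ) • A) ξ = s * hf A ξ := by
  unfold hf
  rw [← Complex.re_ofReal_mul]
  congr 1
  rw [Finset.mul_sum]
  refine Finset.sum_congr rfl fun j _ => ?_
  rw [Finset.mul_sum]
  refine Finset.sum_congr rfl fun k _ => ?_
  rw [Matrix.smul_apply, smul_eq_mul]
  ring

theorem psd_add {m : ℕ} {A B : Matrix (Fin m) (Fin m) ℂ} (hA : Psd A) (hB : Psd B) :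
    Psd (A + B) :=
  ⟨hA.1.add hB.1, fun ξ => by rw [hf_add]; exact add_nonneg (hA.2 ξ) (hB.2 ξ)⟩

theorem psd_smul {m : ℕ} {A : Matrix (Fin m) (Fin m) ℂ} (hA : Psd A) {s : ℝ} (hs : 0 ≤ s) :
    Psd ((s : ℂ) • A) := by
  refine ⟨?_, fun ξ => by rw [hf_smul]; exact mul_nonneg hs (hA.2 ξ)⟩
  refine Matrix.IsHermitian.ext fun i j => ?_
  have h := hA.1.apply i j
  rw [Matrix.smul_apply, Matrix.smul_apply, smul_eq_mul, smul_eq_mul, star_mul', h]
  simp

/-- the family `p₁ Q_i` -/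
noncomputable def FQ (C : Cone) (i : Fin C.nq) : MvPolynomial (Fin C.m) ℂ := C.p₁ * C.Q i

theorem SSFQ (C : Cone) (z : Fin C.m → ℂ) :
    SS (FQ C) z = ‖ev C.p₁ z‖ ^ 2 * ∑ i, ‖ev (C.Q i) z‖ ^ 2 := by
  simp only [SS, FQ, ev, map_mul, norm_mul, mul_pow, Finset.mul_sum]

theorem isOpenU (C : Cone) : IsOpen C.U := by
  have : C.U = (fun z => ev C.Δ z) ⁻¹' {0}ᶜ := rfl
  rw [this]
  exact isOpen_compl_singleton.preimage (ev_an C.Δ).2.continuous

theorem FQpos {C : Cone} (hC : Good C) : ∀ z ∈ C.U, 0 < SS (FQ C) z := by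
  intro z hz
  rw [SSFQ]
  have h1 := norm_pos_iff.2 (hC.p10 z hz)
  obtain ⟨i, hi⟩ := hC.Q0 z hz
  have h2 : 0 < ∑ i, ‖ev (C.Q i) z‖ ^ 2 :=
    Finset.sum_pos' (fun i _ => by positivity) ⟨i, Finset.mem_univ i, by
      have := norm_pos_iff.2 hi
      positivity⟩
  positivity

theorem sz_nonneg (C : Cone) (z : Fin C.m → ℂ) : 0 ≤ C.sz z :=
  Finset.sum_nonneg fun i _ => norm_nonneg _

theorem qle {C : Cone} (hC : Good C) : ∃ c : ℝ, 0 ≤ c ∧ ∀ z ∈ C.U,
    Real.log (SS (FQ C) z) ≤ (2 * ((C.d₁ : ℝ) + C.dq)) * Real.log (C.sz z) + c := by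
  have h1 : ∀ i, ∃ B : ℝ, ∀ z, ‖ev (FQ C i) z‖ ≤ B * C.sz z ^ (C.d₁ + C.dq) := fun i =>
    hC.bdd _ _ (hC.mul _ _ _ _ hC.p1R (hC.QR i))
  choose b hb using h1
  refine ⟨Real.log (∑ i, b i ^ 2 + 1), Real.log_nonneg ?_, fun z hz => ?_⟩
  · have : 0 ≤ ∑ i, b i ^ 2 := Finset.sum_nonneg fun i _ => sq_nonneg _
    linarith
  · have hsz := hC.Xpos z hz
    have h0 : 0 ≤ ∑ i, b i ^ 2 := Finset.sum_nonneg fun i _ => sq_nonneg _
    have h2 : SS (FQ C) z ≤ (∑ i, b i ^ 2 + 1) * (C.sz z ^ (C.d₁ + C.dq)) ^ 2 := by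
      have h3 : SS (FQ C) z ≤ (∑ i, b i ^ 2) * (C.sz z ^ (C.d₁ + C.dq)) ^ 2 := by
        unfold SS
        rw [Finset.sum_mul]
        refine Finset.sum_le_sum fun i _ => ?_
        rw [← mul_pow]
        exact pow_le_pow_left₀ (norm_nonneg _) (hb i z) 2
      nlinarith [sq_nonneg (C.sz z ^ (C.d₁ + C.dq))]
    have h4 := Real.log_le_log (FQpos hC z hz) h2
    rw [Real.log_mul (by positivity) (by positivity), Real.log_pow, Real.log_pow] at h4
    push_cast at h4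
    linarith

theorem comp {C : Cone} (hC : Good C) {A B : (Fin C.m → ℂ) → ℝ} {c₀ : ℝ}
    (hAB : ∀ z ∈ C.U, |A z - B z| ≤ c₀)
    (hB : ∀ z ∈ C.U, Real.log (C.sz z) - c₀ ≤ B z ∧ - c₀ ≤ B z) (δ k : ℝ) (hδ : 0 < δ) :
    ∃ K ⊆ C.U, IsCompact K ∧ ∀ z ∈ C.U, z ∉ K →
      (A z + (δ * Real.log (SS (FQ C) z) + 0)) + 1 ≤
        (1 + δ * (2 * ((C.d₁ : ℝ) + C.dq)) + δ) * B z + (-k) := by
  obtain ⟨c, hc, hq⟩ := qle hC
  obtain ⟨B₁, hB1⟩ := hC.bdd _ _ hC.p1R
  have h1 : ∀ i, ∃ B : ℝ, ∀ z, ‖ev (C.Q i) z‖ ≤ B * C.sz z ^ C.dq := fun i =>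
    hC.bdd _ _ (hC.QR i)
  choose b hb using h1
  set M : ℝ := 2 * ((C.d₁ : ℝ) + C.dq) with hM
  have hM0 : 0 ≤ M := by positivity
  set b₁ : ℝ := (k + 1 + c₀ + δ * M * c₀ + δ * c) / δ with hb1
  set b₂ : ℝ := (δ * (M + 1) * c₀ + k + 1 + c₀) / δ with hb2
  set r : ℝ := Real.exp (b₁ + c₀) with hr
  have hr0 : 0 < r := Real.exp_pos _
  set X₁ : ℝ := |B₁| * r ^ C.d₁ + 1 with hX1
  set X₂ : ℝ := ∑ i, |b i| * r ^ C.dq + 1 with hX2
  have hX1p : 0 < X₁ := by positivity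
  have hX2p : 0 < X₂ := by
    have : 0 ≤ ∑ i, |b i| * r ^ C.dq := Finset.sum_nonneg fun i _ => by positivity
    linarith
  set e₁ : ℝ := Real.exp (-b₂ / 2) with he1
  have he1p : 0 < e₁ := Real.exp_pos _
  refine ⟨{z | z ∈ C.U ∧ C.sz z ≤ r ∧ min (e₁ / X₂) (e₁ / X₁) ≤ ‖ev C.p₁ z‖ ∧
    min (e₁ / X₂) (e₁ / X₁) ≤ ∑ i, ‖ev (C.Q i) z‖}, fun z hz => hz.1,
    hC.cpt r _ (lt_min (by positivity) (by positivity)), fun z hz hK => ?_⟩
  by_contra hcon
  rw [not_le] at hcon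
  apply hK
  have hA := abs_le.1 (hAB z hz)
  have hBz := hB z hz
  have hqz := hq z hz
  have hsz := hC.Xpos z hz
  have hS := FQpos hC z hz
  set q := Real.log (SS (FQ C) z) with hqd
  set L := Real.log (C.sz z) with hL
  have i1 : δ * B z < k + 1 + c₀ + δ * M * c₀ + δ * c := by
    have i2 : δ * q ≤ δ * (M * (B z + c₀) + c) := by
      refine mul_le_mul_of_nonneg_left ?_ hδ.le
      have : M * L ≤ M * (B z + c₀) := mul_le_mul_of_nonneg_left (by linarith) hM0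
      linarith
    nlinarith
  have i3 : B z < b₁ := by
    rw [hb1, lt_div_iff₀ hδ]
    linarith
  have hszr : C.sz z ≤ r := by
    rw [hr, ← Real.log_le_iff_le_exp hsz]
    linarith
  have i4 : -b₂ < q := by
    have i5 : -(δ * (M + 1) * c₀ + k + 1 + c₀) < δ * q := by
      have i6 : δ * (M + 1) * (-c₀) ≤ δ * (M + 1) * B z :=
        mul_le_mul_of_nonneg_left hBz.2 (by positivity)
      nlinarith
    rw [hb2, ← neg_div, div_lt_iff₀ hδ]
    linarith
  have i7 : e₁ ^ 2 < SS (FQ C) z := by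
    rw [he1, ← Real.exp_nat_mul, ← Real.lt_log_iff_exp_lt hS]
    have : ((2 : ℕ) : ℝ) * (-b₂ / 2) = -b₂ := by push_cast; ring
    rw [this]
    exact i4
  have sqn : 0 ≤ ∑ i, ‖ev (C.Q i) z‖ := Finset.sum_nonneg fun i _ => norm_nonneg _
  have i8 : SS (FQ C) z ≤ (‖ev C.p₁ z‖ * ∑ i, ‖ev (C.Q i) z‖) ^ 2 := by
    rw [SSFQ, mul_pow]
    refine mul_le_mul_of_nonneg_left ?_ (by positivity)
    exact Finset.sum_sq_le_sq_sum_of_nonneg fun i _ => norm_nonneg _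
  have i9 : e₁ < ‖ev C.p₁ z‖ * ∑ i, ‖ev (C.Q i) z‖ := by
    refine lt_of_pow_lt_pow_left₀ 2 (by positivity) (i7.trans_le i8)
  have i10 : ‖ev C.p₁ z‖ ≤ X₁ := by
    have j1 := hB1 z
    have j2 : B₁ * C.sz z ^ C.d₁ ≤ |B₁| * r ^ C.d₁ := by
      refine mul_le_mul (le_abs_self _) (pow_le_pow_left₀ hsz.le hszr _) (by positivity)
        (abs_nonneg _)
    linarith
  have i11 : ∑ i, ‖ev (C.Q i) z‖ ≤ X₂ := by
    have j1 : ∑ i, ‖ev (C.Q i) z‖ ≤ ∑ i, |b i| * r ^ C.dq := by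
      refine Finset.sum_le_sum fun i _ => (hb i z).trans ?_
      refine mul_le_mul (le_abs_self _) (pow_le_pow_left₀ hsz.le hszr _) (by positivity)
        (abs_nonneg _)
    linarith
  refine ⟨hz, hszr, (min_le_left _ _).trans ?_, (min_le_right _ _).trans ?_⟩
  · rw [div_le_iff₀ hX2p]
    exact i9.le.trans (mul_le_mul_of_nonneg_left i11 (norm_nonneg _))
  · rw [div_le_iff₀ hX1p]
    refine i9.le.trans ?_
    rw [mul_comm]
    exact mul_le_mul_of_nonneg_left i10 sqn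

theorem step (hSTK : StSTK) (hRMX : StRMX) (hDTM : StDTM) (hCAL : StCAL) {C : Cone} (hC : Good C)
    {A B : (Fin C.m → ℂ) → ℝ} {c₀ : ℝ}
    (sA : ContDiffOn ℝ ∞ A C.U) (sB : ContDiffOn ℝ ∞ B C.U) (pA : ∀ z ∈ C.U, Psd (hes A z))
    (pB : ∀ z ∈ C.U, Psd (hes B z)) (hAB : ∀ z ∈ C.U, |A z - B z| ≤ c₀)
    (hB : ∀ z ∈ C.U, Real.log (C.sz z) - c₀ ≤ B z ∧ - c₀ ≤ B z) (δ k : ℝ) (hδ : 0 < δ)
    (fin : ∫⁻ z in C.U, ENNReal.ofReal (hes B z).det.re ≠ ⊤) :
    ∫⁻ z in {z | z ∈ C.U ∧ (1 + δ * (2 * ((C.d₁ : ℝ) + C.dq)) + δ) * B z + (-k) + 1 <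
      A z + (δ * Real.log (SS (FQ C) z) + 0)}, ENNReal.ofReal (hes A z).det.re ≤
    ENNReal.ofReal ((1 + δ * (2 * ((C.d₁ : ℝ) + C.dq)) + δ) ^ C.m) *
      ∫⁻ z in C.U, ENNReal.ofReal (hes B z).det.re := by
  obtain ⟨K, hKU, hKc, hK⟩ := comp hC hAB hB δ k hδ
  obtain ⟨μ, μ1, μ2, μ3⟩ := hRMX
  set s : ℝ := 1 + δ * (2 * ((C.d₁ : ℝ) + C.dq)) + δ with hs
  have hs0 : 0 ≤ s := by positivity
  have hU := isOpenU C
  obtain ⟨sq', pq⟩ := logSS hCAL hU (FQ C) (FQpos hC)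
  set q : (Fin C.m → ℂ) → ℝ := fun z => Real.log (SS (FQ C) z) with hq
  have sq1 : ContDiffOn ℝ ∞ (fun z => δ * q z + 0) C.U :=
    (contDiffOn_const.mul sq').add contDiffOn_const
  set P₁ : (Fin C.m → ℂ) → ℝ := fun z => A z + (δ * q z + 0) with hP1
  set P₂ : (Fin C.m → ℂ) → ℝ := fun z => s * B z + (-k) with hP2
  have sP1 : ContDiffOn ℝ ∞ P₁ C.U := sA.add sq1
  have sP2 : ContDiffOn ℝ ∞ P₂ C.U := (contDiffOn_const.mul sB).add contDiffOn_const
  have h1 : ∀ z ∈ C.U, hes P₁ z = hes A z + (δ : ℂ) • hes q z := fun z hz => by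
    rw [hP1, hes_add hCAL hU sA sq1 hz, hes_smul hCAL hU δ 0 sq' hz]
  have h2 : ∀ z ∈ C.U, hes P₂ z = (s : ℂ) • hes B z := fun z hz => hes_smul hCAL hU s _ sB hz
  have pP1 : ∀ z ∈ C.U, Psd (hes P₁ z) := fun z hz => by
    rw [h1 z hz]
    exact psd_add (pA z hz) (psd_smul (pq z hz) hδ.le)
  have pP2 : ∀ z ∈ C.U, Psd (hes P₂ z) := fun z hz => by
    rw [h2 z hz]
    exact psd_smul (pB z hz) hs0
  obtain ⟨sW, pW⟩ := μ3 C.m C.U hU P₁ P₂ sP1 sP2 pP1 pP2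
  set W : (Fin C.m → ℂ) → ℝ := fun z => μ (P₁ z) (P₂ z) with hW
  classical
  set φ : (Fin C.m → ℂ) → ℝ := fun z => if z ∈ K then W z - P₂ z else 0 with hφ
  have φU : ∀ z ∈ C.U, φ z = W z - P₂ z := by
    intro z hz
    by_cases hzK : z ∈ K
    · simp only [hφ, if_pos hzK]
    · simp only [hφ, if_neg hzK]
      have := μ2 (P₁ z) (P₂ z) (hK z hz hzK)
      simp only [hW, this, sub_self]
  have φK : ∀ z, z ∉ K → φ z = 0 := fun z hz => by simp only [hφ, if_neg hz]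
  have φs : ContDiff ℝ ∞ φ := by
    rw [contDiff_iff_contDiffAt]
    intro z
    by_cases hz : z ∈ C.U
    · have e : φ =ᶠ[𝓝 z] fun z => W z - P₂ z := by
        filter_upwards [hU.mem_nhds hz] with w hw using φU w hw
      exact (((sW.sub sP2) z hz).contDiffAt (hU.mem_nhds hz)).congr_of_eventuallyEq e
    · have e : φ =ᶠ[𝓝 z] fun _ => 0 := by
        filter_upwards [hKc.isClosed.isOpen_compl.mem_nhds fun h => hz (hKU h)] with w hw
          using φK w hw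
      exact contDiffAt_const.congr_of_eventuallyEq e
  have φt : tsupport φ ⊆ K := by
    refine closure_minimal (fun z hz => ?_) hKc.isClosed
    by_contra h
    exact hz (φK z h)
  have φc : HasCompactSupport φ := HasCompactSupport.intro hKc φK
  have stk := hSTK C.m C.U hU P₂ φ sP2 φs φc (φt.trans hKU)
  have h3 : ∀ z ∈ C.U, hes (fun z => P₂ z + φ z) z = hes W z := by
    intro z hz
    refine hes_congr ?_
    filter_upwards [hU.mem_nhds hz] with w hw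
    rw [φU w hw]
    ring
  have h4 : ∀ z, z ∉ K → hes (fun z => P₂ z + φ z) z = hes P₂ z := by
    intro z hz
    refine hes_congr ?_
    filter_upwards [hKc.isClosed.isOpen_compl.mem_nhds hz] with w hw
    rw [φK w hw, add_zero]
  set E : (Fin C.m → ℂ) → ℂ := fun z => (hes (fun z => P₂ z + φ z) z).det - (hes P₂ z).det with hE
  have cE : ContinuousOn E C.U :=
    (hes_cont hCAL hU (sP2.add φs.contDiffOn)).sub (hes_cont hCAL hU sP2)
  have iE : IntegrableOn E C.U := by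
    have e1 : IntegrableOn E K := (cE.mono hKU).integrableOn_compact hKc
    refine e1.of_forall_diff_eq_zero hU.measurableSet fun z hz => ?_
    simp only [hE, h4 z hz.2, sub_self]
  have rE : ∫ z in C.U, (E z).re = 0 := by
    have e1 := integral_re (𝕜 := ℂ) iE
    rw [stk] at e1
    simpa using e1
  have g2 : ∀ z ∈ C.U, (hes P₂ z).det.re = s ^ C.m * (hes B z).det.re := by
    intro z hz
    rw [h2 z hz, Matrix.det_smul, Fintype.card_fin, ← Complex.ofReal_pow, Complex.re_ofReal_mul]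
  have l2 : ∫⁻ z in C.U, ENNReal.ofReal (hes P₂ z).det.re =
      ENNReal.ofReal (s ^ C.m) * ∫⁻ z in C.U, ENNReal.ofReal (hes B z).det.re := by
    rw [← lintegral_const_mul' _ _ ENNReal.ofReal_ne_top]
    refine setLIntegral_congr_fun hU.measurableSet fun z hz => ?_
    rw [g2 z hz, ENNReal.ofReal_mul (by positivity)]
  have n2 : 0 ≤ᵐ[volume.restrict C.U] fun z => (hes P₂ z).det.re := by
    refine (ae_restrict_iff' hU.measurableSet).2 (Eventually.of_forall fun z hz => ?_)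
    exact (hDTM C.m _ _ (pP2 z hz) (pP2 z hz)).1
  have i2 : IntegrableOn (fun z => (hes P₂ z).det.re) C.U := by
    refine ⟨?_, ?_⟩
    · exact (Complex.continuous_re.comp_continuousOn
        (hes_cont hCAL hU sP2)).aestronglyMeasurable hU.measurableSet
    · rw [hasFiniteIntegral_iff_ofReal n2, l2]
      exact ENNReal.mul_lt_top ENNReal.ofReal_lt_top fin.lt_top
  have gW : ∀ z ∈ C.U, (hes W z).det.re = (hes P₂ z).det.re + (E z).re := by
    intro z hz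
    simp only [hE, h3 z hz, Complex.sub_re]
    ring
  have iW : IntegrableOn (fun z => (hes P₂ z).det.re + (E z).re) C.U := i2.add iE.re
  have nW : 0 ≤ᵐ[volume.restrict C.U] fun z => (hes P₂ z).det.re + (E z).re := by
    refine (ae_restrict_iff' hU.measurableSet).2 (Eventually.of_forall fun z hz => ?_)
    simp only [Pi.zero_apply]
    rw [← gW z hz]
    exact (hDTM C.m _ _ (pW z hz) (pW z hz)).1
  have lW : ∫⁻ z in C.U, ENNReal.ofReal (hes W z).det.re =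
      ∫⁻ z in C.U, ENNReal.ofReal (hes P₂ z).det.re := by
    have e1 : ∫⁻ z in C.U, ENNReal.ofReal (hes W z).det.re =
        ∫⁻ z in C.U, ENNReal.ofReal ((hes P₂ z).det.re + (E z).re) := by
      refine setLIntegral_congr_fun hU.measurableSet fun z hz => ?_
      rw [gW z hz]
    rw [e1, ← ofReal_integral_eq_lintegral_ofReal iW nW, ← ofReal_integral_eq_lintegral_ofReal i2 n2]
    congr 1
    have e3 := integral_add (μ := volume.restrict C.U) i2 iE.re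
    have e4 : ∫ z in C.U, RCLike.re (E z) = 0 := rE
    rw [e4, add_zero] at e3
    exact e3
  have hV : IsOpen {z | z ∈ C.U ∧ P₂ z + 1 < P₁ z} := by
    have e1 := (sP1.continuousOn.sub sP2.continuousOn).isOpen_inter_preimage hU
      (isOpen_Ioi (a := (1 : ℝ)))
    have e2 : {z | z ∈ C.U ∧ P₂ z + 1 < P₁ z} =
        C.U ∩ (fun z => P₁ z - P₂ z) ⁻¹' Set.Ioi 1 := by
      ext z
      simp only [Set.mem_setOf_eq, Set.mem_inter_iff, Set.mem_preimage, Set.mem_Ioi]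
      constructor
      · rintro ⟨a, b⟩
        exact ⟨a, by linarith⟩
      · rintro ⟨a, b⟩
        exact ⟨a, by linarith⟩
    rw [e2]
    exact e1
  calc ∫⁻ z in {z | z ∈ C.U ∧ P₂ z + 1 < P₁ z}, ENNReal.ofReal (hes A z).det.re
      ≤ ∫⁻ z in {z | z ∈ C.U ∧ P₂ z + 1 < P₁ z}, ENNReal.ofReal (hes W z).det.re := by
        refine setLIntegral_mono' hV.measurableSet fun z hz => ENNReal.ofReal_le_ofReal ?_
        have e1 : hes W z = hes P₁ z := by
          refine hes_congr ?_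
          filter_upwards [hV.mem_nhds hz] with w hw
          exact μ1 _ _ hw.2.le
        rw [e1, h1 z hz.1]
        exact (hDTM C.m _ _ (pA z hz.1) (psd_smul (pq z hz.1) hδ.le)).2.2
    _ ≤ ∫⁻ z in C.U, ENNReal.ofReal (hes W z).det.re :=
        lintegral_mono_set fun z hz => hz.1
    _ = _ := by rw [lW, l2]

/-- MODULE CMP -/
theorem hCMP (hSTK : StSTK) (hRMX : StRMX) (hDTM : StDTM) (hCAL : StCAL) : StCMP := by
  intro C hC A B c₀ sA sB pA pB hAB hB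
  by_cases fin : ∫⁻ z in C.U, ENNReal.ofReal (hes B z).det.re = ⊤
  · rw [fin]
    exact le_top
  have main : ∀ δ : ℝ, 0 < δ → ∫⁻ z in C.U, ENNReal.ofReal (hes A z).det.re ≤
      ENNReal.ofReal ((1 + δ * (2 * ((C.d₁ : ℝ) + C.dq)) + δ) ^ C.m) *
        ∫⁻ z in C.U, ENNReal.ofReal (hes B z).det.re := by
    intro δ hδ
    set V : ℕ → Set (Fin C.m → ℂ) := fun k => {z | z ∈ C.U ∧
      (1 + δ * (2 * ((C.d₁ : ℝ) + C.dq)) + δ) * B z + (-(k : ℝ)) + 1 <
      A z + (δ * Real.log (SS (FQ C) z) + 0)} with hV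
    have e1 : C.U = ⋃ k, V k := by
      ext z
      simp only [Set.mem_iUnion, hV, Set.mem_setOf_eq]
      constructor
      · intro hz
        obtain ⟨k, hk⟩ := exists_nat_gt ((1 + δ * (2 * ((C.d₁ : ℝ) + C.dq)) + δ) * B z + 1 -
          (A z + (δ * Real.log (SS (FQ C) z) + 0)))
        exact ⟨k, hz, by linarith⟩
      · rintro ⟨k, hz, _⟩
        exact hz
    have mono : Monotone V := by
      intro a b hab z hz
      refine ⟨hz.1, ?_⟩
      have h1 := hz.2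
      have h2 : (a : ℝ) ≤ b := by exact_mod_cast hab
      linarith
    have e2 : ∫⁻ z in C.U, ENNReal.ofReal (hes A z).det.re =
        ⨆ k, ∫⁻ z in V k, ENNReal.ofReal (hes A z).det.re := by
      conv_lhs => rw [e1]
      exact setLIntegral_iUnion_of_directed _ mono.directed_le
    rw [e2]
    exact iSup_le fun k => step hSTK hRMX hDTM hCAL hC sA sB pA pB hAB hB δ k hδ fin
  set M : ℝ := 2 * ((C.d₁ : ℝ) + C.dq) with hM
  have t1 : Tendsto (fun δ : ℝ => (1 + δ * M + δ) ^ C.m) (𝓝[>] 0) (𝓝 1) := by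
    have c1 : Continuous fun δ : ℝ => (1 + δ * M + δ) ^ C.m := by fun_prop
    have c2 := (c1.tendsto 0).mono_left (nhdsWithin_le_nhds (s := Set.Ioi (0 : ℝ)))
    simpa using c2
  have t2 := ENNReal.Tendsto.mul_const (b := ∫⁻ z in C.U, ENNReal.ofReal (hes B z).det.re)
    (ENNReal.tendsto_ofReal t1) (Or.inr fin)
  rw [ENNReal.ofReal_one, one_mul] at t2
  refine ge_of_tendsto t2 ?_
  filter_upwards [self_mem_nhdsWithin] with δ hδ using main δ hδ

end Pool.Agent.Helper81.KP
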