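import Pool.Agent.Helper81.KP.CmpA

set_option autoImplicit false

namespace Pool.Agent.Helper81.KP

open MeasureTheory Filter Pool.Agent.Helper52.KP
open scoped ContDiff ComplexOrder Topology

variable {m : ℕ}

theorem ev_an (P : MvPolynomial (Fin m) ℂ) :
    Differentiable ℂ (fun z => ev P z) ∧ ContDiff ℝ ∞ (fun z => ev P z) := by
  have h := AnalyticOnNhd.eval_mvPolynomial (𝕜 := ℂ) P
  have h1 : ContDiff ℂ ∞ (fun z => ev P z) := by
    rw [← contDiffOn_univ]
    exact h.contDiffOn (uniqueDiffOn_univ)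
  exact ⟨h1.differentiable (by simp), h1.restrict_scalars ℝ⟩

/-- the sum of squares -/
noncomputable def SS {N : ℕ} (F : Fin N → MvPolynomial (Fin m) ℂ) (z : Fin m → ℂ) : ℝ :=
  ∑ i, ‖ev (F i) z‖ ^ 2

theorem cs {N : ℕ} (a f : Fin N → ℂ) :
    ‖∑ i, a i * star (f i)‖ ^ 2 ≤ (∑ i, ‖f i‖ ^ 2) * ∑ i, ‖a i‖ ^ 2 := by
  have h1 : ‖∑ i, a i * star (f i)‖ ≤ ∑ i, ‖f i‖ * ‖a i‖ := by
    refine (norm_sum_le _ _).trans (Finset.sum_le_sum fun i _ => ?_)
    rw [norm_mul, norm_star, mul_comm]
  exact (pow_le_pow_left₀ (norm_nonneg _) h1 2).trans (Finset.sum_mul_sq_le_sq_mul_sq _ _ _)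

theorem cfSS {N : ℕ} (F : Fin N → MvPolynomial (Fin m) ℂ) :
    cf (SS F) = fun z => ∑ i, ev (F i) z * star (ev (F i) z) := by
  funext z
  simp only [cf, SS, Complex.ofReal_sum]
  refine Finset.sum_congr rfl fun i _ => ?_
  rw [Complex.ofReal_pow, ← Complex.mul_conj']
  rfl

theorem SS_smooth {N : ℕ} (F : Fin N → MvPolynomial (Fin m) ℂ) : ContDiff ℝ ∞ (SS F) := by
  unfold SS
  refine ContDiff.sum fun i _ => ?_
  exact (ev_an (F i)).2.norm_sq ℝ

theorem SS_der (hCAL : StCAL) {N : ℕ} (F : Fin N → MvPolynomial (Fin m) ℂ) (j k : Fin m)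
    (z : Fin m → ℂ) :
    db k (cf (SS F)) z = ∑ i, ev (F i) z * star (dz k (fun z => ev (F i) z) z) ∧
    dz j (cf (SS F)) z = ∑ i, dz j (fun z => ev (F i) z) z * star (ev (F i) z) ∧
    dz j (db k (cf (SS F))) z =
      ∑ i, dz j (fun z => ev (F i) z) z * star (dz k (fun z => ev (F i) z) z) := by
  have sm : ∀ i, ContDiffOn ℝ ∞ (fun z => ev (F i) z) Set.univ := fun i =>
    (ev_an (F i)).2.contDiffOn
  have ss : ∀ i, ContDiffOn ℝ ∞ (fun z => star (ev (F i) z)) Set.univ := fun i =>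
    (starL' ℝ : ℂ ≃L[ℝ] ℂ).contDiff.comp_contDiffOn (sm i)
  have b0 : ∀ i k w, db k (fun z => ev (F i) z) w = 0 := fun i k w =>
    ((hCAL m k k (fun z => ev (F i) z) (fun z => ev (F i) z) w).2.2.1 ((ev_an (F i)).1 w)).1
  have c1 : ∀ k w, db k (cf (SS F)) w = ∑ i, ev (F i) w * star (dz k (fun z => ev (F i) z) w) := by
    intro k w
    rw [cfSS, (dz_sum hCAL isOpen_univ (fun i => (sm i).mul (ss i)) k (Set.mem_univ w)).2]
    refine Finset.sum_congr rfl fun i _ => ?_
    rw [(cal1 hCAL isOpen_univ (sm i) (ss i) k (Set.mem_univ w)).2.2.2.1,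
      (cal1 hCAL isOpen_univ (sm i) (ss i) k (Set.mem_univ w)).2.2.2.2.2.1, b0]
    ring
  refine ⟨c1 k z, ?_, ?_⟩
  · rw [cfSS, (dz_sum hCAL isOpen_univ (fun i => (sm i).mul (ss i)) j (Set.mem_univ z)).1]
    refine Finset.sum_congr rfl fun i _ => ?_
    rw [(cal1 hCAL isOpen_univ (sm i) (ss i) j (Set.mem_univ z)).2.2.1,
      (cal1 hCAL isOpen_univ (sm i) (ss i) j (Set.mem_univ z)).2.2.2.2.1, b0]
    simp
  · have e : db k (cf (SS F)) = fun w => ∑ i, ev (F i) w * star (dz k (fun z => ev (F i) z) w) :=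
      funext (c1 k)
    have sd : ∀ i, ContDiffOn ℝ ∞ (dz k (fun z => ev (F i) z)) Set.univ := fun i =>
      sdz hCAL isOpen_univ (sm i) k
    have ssd : ∀ i, ContDiffOn ℝ ∞ (fun w => star (dz k (fun z => ev (F i) z) w)) Set.univ :=
      fun i => (starL' ℝ : ℂ ≃L[ℝ] ℂ).contDiff.comp_contDiffOn (sd i)
    rw [e, (dz_sum hCAL isOpen_univ (fun i => (sm i).mul (ssd i)) j (Set.mem_univ z)).1]
    refine Finset.sum_congr rfl fun i _ => ?_
    have h2 : ContDiffAt ℝ 2 (fun z => ev (F i) z) z :=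
      ((ev_an (F i)).2.contDiffAt).of_le (by norm_cast)
    have h0 : db j (dz k (fun z => ev (F i) z)) z = 0 := by
      rw [((hCAL m k j (fun z => ev (F i) z) (fun z => ev (F i) z) z).2.2.2.1 h2).1]
      have : db j (fun z => ev (F i) z) = fun _ => 0 := funext (b0 i j)
      rw [this]
      simp [dz]
    rw [(cal1 hCAL isOpen_univ (sm i) (ssd i) j (Set.mem_univ z)).2.2.1,
      (cal1 hCAL isOpen_univ (sd i) (ssd i) j (Set.mem_univ z)).2.2.2.2.1, h0]
    simp

theorem logSS (hCAL : StCAL) {U : Set (Fin m → ℂ)} (hU : IsOpen U) {N : ℕ}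
    (F : Fin N → MvPolynomial (Fin m) ℂ) (hS : ∀ z ∈ U, 0 < SS F z) :
    ContDiffOn ℝ ∞ (fun z => Real.log (SS F z)) U ∧
    ∀ z ∈ U, Psd (hes (fun z => Real.log (SS F z)) z) := by
  have hq : ContDiffOn ℝ ∞ (fun z => Real.log (SS F z)) U :=
    (SS_smooth F).contDiffOn.log fun z hz => (hS z hz).ne'
  refine ⟨hq, fun z hz => ?_⟩
  set q : (Fin m → ℂ) → ℝ := fun z => Real.log (SS F z) with hqd
  have sq' : ContDiffOn ℝ ∞ (cf q) U := cf_smooth hq
  have hexp : ∀ w ∈ U, Complex.exp (cf q w) = cf (SS F) w := by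
    intro w hw
    simp only [cf, hqd]
    rw [← Complex.ofReal_exp, Real.exp_log (hS w hw)]
  have e1 : ∀ k, ∀ w ∈ U, db k (cf (SS F)) w = cf (SS F) w * db k (cf q) w := by
    intro k w hw
    have h1 := (cal1 hCAL hU sq' sq' k hw).2.2.2.2.2.2.2
    rw [← hexp w hw, ← h1]
    refine db_congr ?_
    filter_upwards [hU.mem_nhds hw] with x hx using (hexp x hx).symm
  have key : ∀ j k, cf (SS F) z ^ 2 * hes q z j k =
      cf (SS F) z * dz j (db k (cf (SS F))) z - dz j (cf (SS F)) z * db k (cf (SS F)) z := by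
    intro j k
    have h2 : dz j (db k (cf (SS F))) z =
        dz j (cf (SS F)) z * db k (cf q) z + cf (SS F) z * dz j (db k (cf q)) z := by
      rw [← (cal1 hCAL hU (cf_smooth (SS_smooth F).contDiffOn) (sdb hCAL hU sq' k) j hz).2.2.1]
      refine dz_congr ?_
      filter_upwards [hU.mem_nhds hz] with x hx using e1 k x hx
    rw [h2, e1 k z hz]
    simp only [hes, Matrix.of_apply]
    ring
  set f : Fin N → ℂ := fun i => ev (F i) z with hf0
  set g : Fin N → Fin m → ℂ := fun i j => dz j (fun z => ev (F i) z) z with hg0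
  have hSz := hS z hz
  have hSc : cf (SS F) z = ((SS F z : ℝ) : ℂ) := rfl
  have key2 : ∀ j k, ((SS F z : ℝ) : ℂ) ^ 2 * hes q z j k =
      ((SS F z : ℝ) : ℂ) * (∑ i, g i j * star (g i k)) -
        (∑ i, g i j * star (f i)) * (∑ i, f i * star (g i k)) := by
    intro j k
    have h3 := SS_der hCAL F j k z
    rw [← hSc, key, h3.1, h3.2.1, h3.2.2]
  have hS2 : ((SS F z : ℝ) : ℂ) ^ 2 ≠ 0 := pow_ne_zero _ (by exact_mod_cast hSz.ne')
  constructor
  · refine Matrix.IsHermitian.ext fun j k => ?_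
    apply mul_left_cancel₀ hS2
    rw [key2 j k]
    have h4 : ((SS F z : ℝ) : ℂ) ^ 2 * star (hes q z k j) =
        star (((SS F z : ℝ) : ℂ) ^ 2 * hes q z k j) := by
      rw [star_mul', star_pow]
      simp
    rw [h4, key2 k j]
    simp only [star_sub, star_mul', star_sum, star_star]
    have h5 : star ((SS F z : ℝ) : ℂ) = ((SS F z : ℝ) : ℂ) := by simp
    rw [h5]
    have a1 : (∑ i, star (g i k) * g i j) = ∑ i, g i j * star (g i k) :=
      Finset.sum_congr rfl fun i _ => mul_comm _ _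
    have a2 : (∑ i, star (g i k) * f i) = ∑ i, f i * star (g i k) :=
      Finset.sum_congr rfl fun i _ => mul_comm _ _
    have a3 : (∑ i, star (f i) * g i j) = ∑ i, g i j * star (f i) :=
      Finset.sum_congr rfl fun i _ => mul_comm _ _
    rw [a1, a2, a3]
    ring
  · intro ξ
    set a : Fin N → ℂ := fun i => ∑ j, g i j * ξ j with ha
    have h6 : ((SS F z : ℝ) : ℂ) ^ 2 * (∑ j, ∑ k, hes q z j k * ξ j * star (ξ k)) =
        ((SS F z : ℝ) : ℂ) * (∑ i, a i * star (a i)) -
          (∑ i, a i * star (f i)) * star (∑ i, a i * star (f i)) := by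
      have b1 : ∑ i, a i * star (a i) = ∑ j, ∑ k, (∑ i, g i j * star (g i k)) * ξ j * star (ξ k) := by
        simp only [ha, star_sum, star_mul', Finset.sum_mul, Finset.mul_sum]
        refine (Finset.sum_congr rfl fun i _ => Finset.sum_comm).trans ?_
        rw [Finset.sum_comm]
        refine Finset.sum_congr rfl fun j _ => ?_
        rw [Finset.sum_comm]
        refine Finset.sum_congr rfl fun k _ => ?_
        refine Finset.sum_congr rfl fun i _ => ?_
        ring
      have b2 : ∑ i, a i * star (f i) = ∑ j, (∑ i, g i j * star (f i)) * ξ j := by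
        simp only [ha, Finset.sum_mul]
        rw [Finset.sum_comm]
        refine Finset.sum_congr rfl fun j _ => ?_
        refine Finset.sum_congr rfl fun i _ => ?_
        ring
      have b3 : star (∑ i, a i * star (f i)) = ∑ k, (∑ i, f i * star (g i k)) * star (ξ k) := by
        rw [b2]
        simp only [star_sum, star_mul', star_star]
        refine Finset.sum_congr rfl fun k _ => ?_
        congr 1
        exact Finset.sum_congr rfl fun i _ => mul_comm _ _
      rw [b1, b3, b2, Finset.sum_mul_sum, Finset.mul_sum, Finset.mul_sum,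
        ← Finset.sum_sub_distrib]
      refine Finset.sum_congr rfl fun j _ => ?_
      rw [Finset.mul_sum, Finset.mul_sum, ← Finset.sum_sub_distrib]
      refine Finset.sum_congr rfl fun k _ => ?_
      rw [← mul_assoc, ← mul_assoc, key2 j k]
      ring
    have h7 : (SS F z) ^ 2 * hf (hes q z) ξ =
        SS F z * (∑ i, ‖a i‖ ^ 2) - ‖∑ i, a i * star (f i)‖ ^ 2 := by
      have h8 := congrArg Complex.re h6
      rw [← Complex.ofReal_pow, Complex.re_ofReal_mul] at h8
      unfold hf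
      rw [h8, Complex.sub_re, Complex.re_ofReal_mul]
      congr 1
      · congr 1
        rw [Complex.re_sum]
        refine Finset.sum_congr rfl fun i _ => ?_
        have : a i * star (a i) = ((‖a i‖ ^ 2 : ℝ) : ℂ) := by
          rw [Complex.ofReal_pow, ← Complex.mul_conj']
          rfl
        rw [this, Complex.ofReal_re]
      · have : ∀ x : ℂ, (x * star x).re = ‖x‖ ^ 2 := by
          intro x
          have : x * star x = ((‖x‖ ^ 2 : ℝ) : ℂ) := by
            rw [Complex.ofReal_pow, ← Complex.mul_conj']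
            rfl
          rw [this, Complex.ofReal_re]
        exact this _
    have h9 := cs a f
    have h10 : 0 ≤ (SS F z) ^ 2 * hf (hes q z) ξ := by
      rw [h7]
      have : SS F z = ∑ i, ‖f i‖ ^ 2 := rfl
      rw [this]
      linarith
    exact nonneg_of_mul_nonneg_right h10 (by positivity)

end Pool.Agent.Helper81.KP
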