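import Pool.Agent.Helper52.KP.StM
import Pool.Agent.Helper81.KP.CmpB

set_option autoImplicit false

namespace Pool.Agent.Helper81.KP

open MeasureTheory Filter Pool.Agent.Helper52.KP
open scoped ContDiff ComplexOrder Topology

theorem hor_openU (C : Cone) : IsOpen C.U := by
  have : C.U = (fun z => ev C.Δ z) ⁻¹' {0}ᶜ := rfl
  rw [this]
  exact isOpen_compl_singleton.preimage (ev_an C.Δ).2.continuous

theorem hor_pow {x : ℝ} (hx : 0 ≤ x) {a b : ℕ} (hab : a ≤ b) : x ^ a ≤ 1 + x ^ b := by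
  rcases le_total x 1 with h | h
  · have := pow_le_one₀ (n := a) hx h
    have := pow_nonneg hx b
    linarith
  · have := pow_le_pow_right₀ h hab
    linarith

theorem hor_sq (a b : ℂ) : ‖a - b‖ ^ 2 ≤ 2 * ‖a‖ ^ 2 + 2 * ‖b‖ ^ 2 := by
  have h1 := norm_sub_le a b
  have h2 : ‖a - b‖ ^ 2 ≤ (‖a‖ + ‖b‖) ^ 2 := pow_le_pow_left₀ (norm_nonneg _) h1 2
  nlinarith [sq_nonneg (‖a‖ - ‖b‖)]

theorem hor_inn {m : ℕ} (U : Set (Fin m → ℂ)) (ψ : (Fin m → ℂ) → ℝ) (f : (Fin m → ℂ) → ℂ) :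
    inn U ψ f f = ((nrm U ψ f : ℝ) : ℂ) := by
  unfold inn nrm
  rw [← integral_complex_ofReal]
  congr 1
  funext z
  have : f z * star (f z) = ((‖f z‖ ^ 2 : ℝ) : ℂ) := by
    rw [Complex.ofReal_pow, ← Complex.mul_conj']
    rfl
  rw [this]
  push_cast
  rfl

/-- MODULE HOR -/
theorem hHOR (hRHU : StRHU) (hPAI : StPAI) (hMOM : StMOM) (hCAL : StCAL) : StHOR := by
  intro C hC k G κ sG hG hGb hκ iκ
  have hU := hor_openU C
  have hUm := hU.measurableSet
  obtain ⟨B, q, hB⟩ := hGb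
  obtain ⟨mom1, mom2, mom3, mom4⟩ := hMOM C hC
  have uc : ContinuousOn C.u C.U := hC.usm.continuousOn
  have ec : ContinuousOn (fun z => Real.exp (-C.u z)) C.U := Real.continuous_exp.comp_continuousOn
    uc.neg
  have lG : L2 C.U C.u G := by
    refine ⟨sG.continuousOn.aestronglyMeasurable hUm, ?_⟩
    have i1 : IntegrableOn (fun z => B * (C.sz z ^ 0 * Real.exp (-C.u z) * ‖ev C.J z‖ ^ 2 +
        C.sz z ^ q * Real.exp (-C.u z) * ‖ev C.J z‖ ^ 2)) C.U :=
      ((mom3 0).add (mom3 q)).const_mul B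
    refine i1.mono' (((sG.continuousOn.norm.pow 2).mul ec).aestronglyMeasurable hUm) ?_
    refine (ae_restrict_iff' hUm).2 (Eventually.of_forall fun z hz => ?_)
    rw [Real.norm_of_nonneg (by positivity)]
    have := mul_le_mul_of_nonneg_right (hB z hz) (Real.exp_pos (-C.u z)).le
    calc _ ≤ _ := this
      _ = _ := by ring
  obtain ⟨s, hs, β, γ, lsJ, hβ, hγ, hWT, iS, leS, -⟩ := hRHU C hC k G lG hG
  set a : (Fin C.m → ℂ) → ℂ := fun z => G z - ev s z * ev C.J z with ha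
  have hol : Differentiable ℂ (fun z => ev s z * ev C.J z) := (ev_an s).1.mul (ev_an C.J).1
  have ssJ : ContDiff ℝ ∞ (fun z => ev s z * ev C.J z) := (ev_an s).2.mul (ev_an C.J).2
  have sa : ContDiffOn ℝ ∞ a C.U := sG.sub ssJ.contDiffOn
  have la : L2 C.U C.u a := by
    refine ⟨lG.1.sub lsJ.1, ?_⟩
    have i1 : IntegrableOn (fun z => 2 * (‖G z‖ ^ 2 * Real.exp (-C.u z)) +
        2 * (‖ev s z * ev C.J z‖ ^ 2 * Real.exp (-C.u z))) C.U :=
      (lG.2.const_mul 2).add (lsJ.2.const_mul 2)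
    refine i1.mono' (((sa.continuousOn.norm.pow 2).mul ec).aestronglyMeasurable hUm) ?_
    refine Eventually.of_forall fun z => ?_
    rw [Real.norm_of_nonneg (by positivity)]
    have := mul_le_mul_of_nonneg_right (hor_sq (G z) (ev s z * ev C.J z))
      (Real.exp_pos (-C.u z)).le
    calc _ ≤ _ := this
      _ = _ := by ring
  have hβm : ∀ j, AEStronglyMeasurable (β j) (volume.restrict C.U) := fun j => (hβ j).1
  have hesc : ∀ j k, ContinuousOn (fun z => hes C.u z j k) C.U := by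
    intro j k
    exact (sdz hCAL hU (sdb hCAL hU (cf_smooth hC.usm) k) j).continuousOn
  have hfm : AEStronglyMeasurable (fun z => hf (hes C.u z) (fun j => β j z)) (volume.restrict C.U) := by
    unfold hf
    refine Complex.continuous_re.comp_aestronglyMeasurable ?_
    refine Finset.aestronglyMeasurable_fun_sum _ fun j _ => ?_
    refine Finset.aestronglyMeasurable_fun_sum _ fun k _ => ?_
    refine (((hesc j k).aestronglyMeasurable hUm).mul (hβm j)).mul ?_
    exact continuous_star.comp_aestronglyMeasurable (hβm k)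
  have hf0 : ∀ z ∈ C.U, 0 ≤ hf (hes C.u z) (fun j => β j z) := by
    intro z hz
    by_cases h : (fun j => β j z) = 0
    · rw [h]
      simp [hf]
    · exact (((hC.uhes z hz).1).2 _ h).le
  have g0 : ∀ z, 0 ≤ ∑ j, ∑ k, ‖γ k j z‖ ^ 2 := fun z =>
    Finset.sum_nonneg fun j _ => Finset.sum_nonneg fun k _ => by positivity
  have iβ : IntegrableOn (fun z => hf (hes C.u z) (fun j => β j z) * Real.exp (-C.u z)) C.U := by
    refine iS.mono' (hfm.mul (ec.aestronglyMeasurable hUm)) ?_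
    refine (ae_restrict_iff' hUm).2 (Eventually.of_forall fun z hz => ?_)
    rw [Real.norm_of_nonneg (mul_nonneg (hf0 z hz) (Real.exp_pos _).le)]
    refine mul_le_mul_of_nonneg_right ?_ (Real.exp_pos _).le
    linarith [g0 z]
  have leβ : ∫ z in C.U, hf (hes C.u z) (fun j => β j z) * Real.exp (-C.u z) ≤ nrm C.U C.u a := by
    refine le_trans ?_ leS
    refine setIntegral_mono_on iβ iS hUm fun z hz => ?_
    refine mul_le_mul_of_nonneg_right ?_ (Real.exp_pos _).le
    linarith [g0 z]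
  have bnd : ∃ (B : ℝ) (q : ℕ), ∀ z ∈ C.U,
      ‖a z‖ ^ 2 ≤ B * (1 + C.sz z ^ q) * ‖ev C.J z‖ ^ 2 := by
    obtain ⟨b, hb⟩ := hC.bdd k s hs
    refine ⟨4 * |B| + 2 * b ^ 2, q + 2 * k, fun z hz => ?_⟩
    have sz0 : 0 ≤ C.sz z := (hC.Xpos z hz).le
    have h1 := hor_sq (G z) (ev s z * ev C.J z)
    have h2 := hB z hz
    have h3 : ‖ev s z * ev C.J z‖ ^ 2 ≤ b ^ 2 * C.sz z ^ (2 * k) * ‖ev C.J z‖ ^ 2 := by
      rw [norm_mul, mul_pow]
      refine mul_le_mul_of_nonneg_right ?_ (by positivity)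
      have := pow_le_pow_left₀ (norm_nonneg _) (hb z) 2
      rw [mul_pow, ← pow_mul, mul_comm k 2] at this
      exact this
    have h4 := hor_pow sz0 (show q ≤ q + 2 * k by omega)
    have h5 := hor_pow sz0 (show 2 * k ≤ q + 2 * k by omega)
    have h6 : B * (1 + C.sz z ^ q) ≤ |B| * (2 * (1 + C.sz z ^ (q + 2 * k))) := by
      refine mul_le_mul (le_abs_self _) ?_ (by positivity) (abs_nonneg _)
      have := pow_nonneg sz0 (q + 2 * k)
      linarith
    have h7 : b ^ 2 * C.sz z ^ (2 * k) ≤ b ^ 2 * (1 + C.sz z ^ (q + 2 * k)) :=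
      mul_le_mul_of_nonneg_left h5 (sq_nonneg _)
    have J0 : 0 ≤ ‖ev C.J z‖ ^ 2 := by positivity
    have h8 := mul_le_mul_of_nonneg_right h6 J0
    have h9 := mul_le_mul_of_nonneg_right h7 J0
    show ‖G z - ev s z * ev C.J z‖ ^ 2 ≤ _
    nlinarith
  have κa : ∀ z ∈ C.U, 0 ≤ κ z ∧ ∀ ξ, ‖∑ j, db j a z * star (ξ j)‖ ^ 2 ≤
      κ z * hf (hes C.u z) ξ := by
    intro z hz
    refine ⟨(hκ z hz).1, fun ξ => ?_⟩
    have e : ∀ j, db j a z = db j G z := by
      intro j
      have hneg : Differentiable ℂ (fun z => -(ev s z * ev C.J z)) := hol.neg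
      have sneg : ContDiffOn ℝ ∞ (fun z => -(ev s z * ev C.J z)) C.U := ssJ.neg.contDiffOn
      have e0 : a = fun z => G z + -(ev s z * ev C.J z) := by
        funext z
        simp [ha, sub_eq_add_neg]
      have h0 := ((hCAL C.m j j _ (fun z => -(ev s z * ev C.J z)) z).2.2.1 (hneg z)).1
      rw [e0, (cal1 hCAL hU sG sneg j hz).2.1, h0, add_zero]
    simp only [e]
    exact (hκ z hz).2 ξ
  have fin := hPAI C hC β a a κ hβ la hWT iβ sa bnd κa iκ
  rw [hor_inn, Complex.norm_real, Real.norm_eq_abs, sq_abs] at fin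
  have n0 : 0 ≤ nrm C.U C.u a := integral_nonneg fun z => by positivity
  have k0 : 0 ≤ ∫ z in C.U, κ z * Real.exp (-C.u z) :=
    setIntegral_nonneg hUm fun z hz => mul_nonneg (hκ z hz).1 (Real.exp_pos _).le
  refine ⟨s, hs, la, ?_⟩
  have fin2 := fin.trans (mul_le_mul_of_nonneg_left leβ k0)
  rcases n0.eq_or_lt with h | h
  · rw [← h]
    exact k0
  · rw [pow_two] at fin2
    exact le_of_mul_le_mul_right fin2 h

end Pool.Agent.Helper81.KP
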