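import Pool.Agent.Helper85.KP.StE
import Pool.Agent.Helper81.KP.CmpB

set_option autoImplicit false

namespace Pool.Agent.Helper81.KP

open MeasureTheory Filter Pool.Agent.Helper52.KP Pool.Agent.Helper85.KP
open scoped ContDiff ComplexOrder Topology

private theorem openU (C : Cone) : IsOpen C.U := by
  have : C.U = (fun z => ev C.Δ z) ⁻¹' {0}ᶜ := rfl
  rw [this]
  exact isOpen_compl_singleton.preimage (ev_an C.Δ).2.continuous

private theorem pw1 {x : ℝ} (hx : 0 ≤ x) {a b : ℕ} (hab : a ≤ b) : x ^ a ≤ 1 + x ^ b := by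
  rcases le_total x 1 with h | h
  · have := pow_le_one₀ (n := a) hx h
    have := pow_nonneg hx b
    linarith
  · have := pow_le_pow_right₀ h hab
    linarith

private theorem evs {m : ℕ} (P : MvPolynomial (Fin m) ℂ) :
    ContDiffOn ℝ ∞ (fun z => ev P z) Set.univ := (ev_an P).2.contDiffOn

/-- the derivative of a polynomial -/
theorem dz_pderiv (hCAL : StCAL) {m : ℕ} (j : Fin m) (P : MvPolynomial (Fin m) ℂ)
    (z : Fin m → ℂ) : dz j (fun z => ev P z) z = ev (MvPolynomial.pderiv j P) z := by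
  induction P using MvPolynomial.induction_on with
  | C a => simp [dz, ev]
  | add p q hp hq =>
    have h := (cal1 hCAL isOpen_univ (evs p) (evs q) j (Set.mem_univ z)).1
    simp only [ev, map_add] at h hp hq ⊢
    rw [h, hp, hq]
  | mul_X p i hp =>
    have hx : dz j (fun z : Fin m → ℂ => ev (MvPolynomial.X i) z) z =
        ev (MvPolynomial.pderiv j (MvPolynomial.X i)) z := by
      have e1 : (fun z : Fin m → ℂ => ev (MvPolynomial.X i) z) = fun z => z i := by
        funext z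
        simp [ev]
      rw [e1, MvPolynomial.pderiv_X]
      have e2 : fderiv ℝ (fun z : Fin m → ℂ => z i) z =
          ContinuousLinearMap.proj (R := ℝ) (φ := fun _ => ℂ) i :=
        (ContinuousLinearMap.proj (R := ℝ) (φ := fun _ : Fin m => ℂ) i).fderiv
      simp only [dz, e2, ContinuousLinearMap.proj_apply, ev]
      by_cases h : i = j
      · subst h
        simp
      · rw [Pi.single_eq_of_ne h, Pi.single_eq_of_ne h, Pi.single_eq_of_ne' (Ne.symm h)]
        simp
    have h := (cal1 hCAL isOpen_univ (evs p) (evs (MvPolynomial.X i)) j (Set.mem_univ z)).2.2.1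
    simp only [ev, map_mul, Derivation.leibniz, map_add, smul_eq_mul] at h hp hx ⊢
    rw [h, hp, hx]
    ring

private theorem icc {m : ℕ} {U K : Set (Fin m → ℂ)} (hU : IsOpen U) (hK : IsCompact K)
    (hKU : K ⊆ U) {F : (Fin m → ℂ) → ℂ} (hF : ContinuousOn F U) (h0 : ∀ z, z ∉ K → F z = 0) :
    IntegrableOn F U :=
  ((hF.mono hKU).integrableOn_compact hK).of_forall_diff_eq_zero hU.measurableSet
    fun z hz => h0 z hz.2

/-- MODULE EVI -/
theorem hEVI (hCUT : StCUT) (hMOM : StMOM) (hCAL : StCAL) : StEVI := by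
  intro C hC g B c gm hg β hβ iβ hWT k f hf' h hh f' hff heq
  have hU := openU C
  have hUm := hU.measurableSet
  obtain ⟨-, -, mom3, -⟩ := hMOM C hC
  obtain ⟨χ, κ, χ1, χ2, -, χ4, χ5⟩ := hCUT C hC
  obtain ⟨au, bu, au0, hbu⟩ := hC.ubd
  obtain ⟨Bf, hBf⟩ := hC.bdd k f hf'
  obtain ⟨Bh, hBh⟩ := hC.bdd k h hh
  obtain ⟨Bf', hBf'⟩ := hC.bdd k f' hff
  have uc : ContinuousOn C.u C.U := hC.usm.continuousOn
  have ec : ContinuousOn (fun z => Real.exp (-C.u z)) C.U := Real.continuous_exp.comp_continuousOn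
    uc.neg
  have ecc : ContinuousOn (fun z => ((Real.exp (-C.u z) : ℝ) : ℂ)) C.U :=
    Complex.continuous_ofReal.comp_continuousOn ec
  have fc : Continuous fun z => ev f z := (ev_an f).2.continuous
  have hc : Continuous fun z => ev h z := (ev_an h).2.continuous
  have f'c : Continuous fun z => ev f' z := (ev_an f').2.continuous
  have Jc : Continuous fun z => ev C.J z := (ev_an C.J).2.continuous
  have βc : ∀ j, ContinuousOn (β j) C.U := fun j => (hβ j).continuousOn
  have sz0 : ∀ z, 0 ≤ C.sz z := fun z => Finset.sum_nonneg fun i _ => norm_nonneg _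
  -- integrands
  set G1 : (Fin C.m → ℂ) → ℂ := fun z => ((g z - c : ℝ) : ℂ) * ev f z * star (ev h z) *
      ((‖ev C.J z‖ ^ 2 * Real.exp (-C.u z) : ℝ) : ℂ) with hG1
  set G2 : (Fin C.m → ℂ) → ℂ := fun z => ev f' z * ev C.J z * star (ev h z * ev C.J z) *
      ((Real.exp (-C.u z) : ℝ) : ℂ) with hG2
  set G3 : ℕ → (Fin C.m → ℂ) → ℂ := fun i z => ev f z * star (ev h z * ev C.J z) *
      (∑ j, β j z * star (db j (cf (χ i)) z)) * ((Real.exp (-C.u z) : ℝ) : ℂ) with hG3
  have sχ : ∀ i, ContDiffOn ℝ ∞ (cf (χ i)) Set.univ := fun i => cf_smooth (χ1 i).1.contDiffOn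
  have dχ : ∀ i j, Continuous (db j (cf (χ i))) := fun i j =>
    continuousOn_univ.1 (sdb hCAL isOpen_univ (sχ i) j).continuousOn
  have m1 : AEStronglyMeasurable G1 (volume.restrict C.U) := by
    have e1 : AEStronglyMeasurable (fun z => ((g z - c : ℝ) : ℂ)) (volume.restrict C.U) :=
      (Complex.measurable_ofReal.comp (gm.sub_const c)).aestronglyMeasurable
    have e2 : ContinuousOn (fun z => ev f z * star (ev h z) *
      ((‖ev C.J z‖ ^ 2 * Real.exp (-C.u z) : ℝ) : ℂ)) C.U := by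
      refine ((fc.mul hc.star).continuousOn).mul ?_
      exact Complex.continuous_ofReal.comp_continuousOn ((Jc.norm.pow 2).continuousOn.mul ec)
    have e3 := e1.mul (e2.aestronglyMeasurable hUm)
    refine e3.congr (Eventually.of_forall fun z => ?_)
    simp only [hG1, Pi.mul_apply]
    ring
  have c2 : ContinuousOn G2 C.U :=
    ((f'c.mul Jc).mul (hc.mul Jc).star).continuousOn.mul ecc
  have c3 : ∀ i, ContinuousOn (G3 i) C.U := by
    intro i
    refine ContinuousOn.mul (ContinuousOn.mul (fc.mul (hc.mul Jc).star).continuousOn ?_) ecc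
    refine continuousOn_finsetSum _ fun j _ => (βc j).mul ?_
    exact (dχ i j).star.continuousOn
  have M1 : ∀ q : ℕ, IntegrableOn (fun z => C.sz z ^ q * Real.exp (-C.u z) * ‖ev C.J z‖ ^ 2) C.U :=
    mom3
  have i1 : IntegrableOn (fun z => |B| * bu * |Bf| * |Bh| * (C.sz z ^ (2 * k + 1) *
      Real.exp (-C.u z) * ‖ev C.J z‖ ^ 2) + |c| * |Bf| * |Bh| * (C.sz z ^ (2 * k) *
      Real.exp (-C.u z) * ‖ev C.J z‖ ^ 2)) C.U :=
    ((M1 _).const_mul _).add ((M1 _).const_mul _)
  have b1 : ∀ z ∈ C.U, ‖G1 z‖ ≤ |B| * bu * |Bf| * |Bh| * (C.sz z ^ (2 * k + 1) *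
      Real.exp (-C.u z) * ‖ev C.J z‖ ^ 2) + |c| * |Bf| * |Bh| * (C.sz z ^ (2 * k) *
      Real.exp (-C.u z) * ‖ev C.J z‖ ^ 2) := by
    intro z hz
    have hb := hbu z hz
    have a1 : |g z - c| ≤ |B| * (bu * C.sz z) + |c| := by
      have a2 := hg z hz
      have a3 : B * C.u z ≤ |B| * (bu * C.sz z) := by
        refine (mul_le_mul_of_nonneg_right (le_abs_self B) ?_).trans
          (mul_le_mul_of_nonneg_left hb.2 (abs_nonneg _))
        exact le_trans (mul_nonneg au0.le (sz0 z)) hb.1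
      have a4 := abs_sub (g z) c
      linarith
    have a5 : ‖ev f z‖ ≤ |Bf| * C.sz z ^ k := (hBf z).trans
      (mul_le_mul_of_nonneg_right (le_abs_self _) (pow_nonneg (sz0 z) _))
    have a6 : ‖ev h z‖ ≤ |Bh| * C.sz z ^ k := (hBh z).trans
      (mul_le_mul_of_nonneg_right (le_abs_self _) (pow_nonneg (sz0 z) _))
    have w0 : 0 ≤ ‖ev C.J z‖ ^ 2 * Real.exp (-C.u z) := by positivity
    have w1 : ‖((‖ev C.J z‖ ^ 2 * Real.exp (-C.u z) : ℝ) : ℂ)‖ =
        ‖ev C.J z‖ ^ 2 * Real.exp (-C.u z) := by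
      rw [Complex.norm_real, Real.norm_of_nonneg w0]
    simp only [hG1]
    rw [norm_mul, norm_mul, norm_mul, norm_star, w1, Complex.norm_real, Real.norm_eq_abs]
    have a7 : |g z - c| * ‖ev f z‖ * ‖ev h z‖ ≤
        (|B| * (bu * C.sz z) + |c|) * (|Bf| * C.sz z ^ k) * (|Bh| * C.sz z ^ k) := by
      have p1 : 0 ≤ |B| * (bu * C.sz z) + |c| := (abs_nonneg _).trans a1
      have p2 := sz0 z
      refine mul_le_mul (mul_le_mul a1 a5 (norm_nonneg _) p1) a6 (norm_nonneg _)
        (mul_nonneg p1 (by positivity))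
    calc _ ≤ _ := mul_le_mul_of_nonneg_right a7 w0
      _ = _ := by ring
  have i2 : IntegrableOn (fun z => |Bf'| * |Bh| * (C.sz z ^ (2 * k) *
      Real.exp (-C.u z) * ‖ev C.J z‖ ^ 2)) C.U := (M1 _).const_mul _
  have b2 : ∀ z ∈ C.U, ‖G2 z‖ ≤ |Bf'| * |Bh| * (C.sz z ^ (2 * k) *
      Real.exp (-C.u z) * ‖ev C.J z‖ ^ 2) := by
    intro z hz
    have a5 : ‖ev f' z‖ ≤ |Bf'| * C.sz z ^ k := (hBf' z).trans
      (mul_le_mul_of_nonneg_right (le_abs_self _) (pow_nonneg (sz0 z) _))
    have a6 : ‖ev h z‖ ≤ |Bh| * C.sz z ^ k := (hBh z).trans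
      (mul_le_mul_of_nonneg_right (le_abs_self _) (pow_nonneg (sz0 z) _))
    simp only [hG2, norm_mul, norm_star, Complex.norm_real, Real.norm_eq_abs]
    rw [abs_of_pos (Real.exp_pos _)]
    have a7 : ‖ev f' z‖ * ‖ev h z‖ ≤ (|Bf'| * C.sz z ^ k) * (|Bh| * C.sz z ^ k) := by
      have p2 := sz0 z
      refine mul_le_mul a5 a6 (norm_nonneg _) (by positivity)
    have w0 : 0 ≤ ‖ev C.J z‖ ^ 2 * Real.exp (-C.u z) := by positivity
    calc _ = ‖ev f' z‖ * ‖ev h z‖ * (‖ev C.J z‖ ^ 2 * Real.exp (-C.u z)) := by ring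
      _ ≤ _ := mul_le_mul_of_nonneg_right a7 w0
      _ = _ := by ring
  -- third integrand
  set X : ℝ := ∫ z in C.U, hf (hes C.u z) (fun j => β j z) * Real.exp (-C.u z) with hX
  set T : ℕ → ℝ := fun i => ∫ z in C.U, κ i z * (1 + C.sz z ^ (4 * k)) * Real.exp (-C.u z) *
      ‖ev C.J z‖ ^ 2 with hT
  have hf0 : ∀ z ∈ C.U, 0 ≤ hf (hes C.u z) (fun j => β j z) := by
    intro z hz
    by_cases hb : (fun j => β j z) = 0
    · rw [hb]
      simp [hf]
    · exact (((hC.uhes z hz).1).2 _ hb).le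
  have b3 : ∀ (r : ℝ), 0 < r → ∀ i, ∀ z ∈ C.U, ‖G3 i z‖ ≤
      r * (hf (hes C.u z) (fun j => β j z) * Real.exp (-C.u z)) + (Bf ^ 2 * Bh ^ 2 / r) *
        (κ i z * (1 + C.sz z ^ (4 * k)) * Real.exp (-C.u z) * ‖ev C.J z‖ ^ 2) := by
    intro r hr i z hz
    obtain ⟨k0, k1⟩ := χ4 i z hz
    have k2 := k1 (fun j => β j z)
    have e1 : ‖∑ j, β j z * star (db j (cf (χ i)) z)‖ =
        ‖∑ j, db j (cf (χ i)) z * star (β j z)‖ := by
      rw [← norm_star, star_sum]
      congr 1
      refine Finset.sum_congr rfl fun j _ => ?_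
      rw [star_mul', star_star, mul_comm]
    set y := ‖∑ j, db j (cf (χ i)) z * star (β j z)‖ with hy
    have y0 : 0 ≤ y := norm_nonneg _
    set x := ‖ev f z‖ * ‖ev h z‖ * ‖ev C.J z‖ with hx
    have x0 : 0 ≤ x := by positivity
    have H0 := hf0 z hz
    set H := hf (hes C.u z) (fun j => β j z) with hH
    have key : x * y ≤ r * H + x ^ 2 * κ i z / r := by
      have q1 : (x * y) ^ 2 ≤ (r * H + x ^ 2 * κ i z / r) ^ 2 := by
        have q2 : (x * y) ^ 2 ≤ x ^ 2 * (κ i z * H) := by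
          rw [mul_pow]
          exact mul_le_mul_of_nonneg_left k2 (sq_nonneg _)
        have q3 : x ^ 2 * (κ i z * H) = (r * H) * (x ^ 2 * κ i z / r) := by
          field_simp
        have q4 : 0 ≤ r * H := by positivity
        have q5 : 0 ≤ x ^ 2 * κ i z / r := by positivity
        rw [q3] at q2
        nlinarith
      refine le_of_sq_le_sq ?_ ?_
      · exact q1
      · positivity
    have x2 : x ^ 2 * κ i z ≤ (Bf ^ 2 * Bh ^ 2) * (κ i z * (1 + C.sz z ^ (4 * k)) *
        ‖ev C.J z‖ ^ 2) := by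
      have a5 := pow_le_pow_left₀ (norm_nonneg _) (hBf z) 2
      have a6 := pow_le_pow_left₀ (norm_nonneg _) (hBh z) 2
      have a7 : ‖ev f z‖ ^ 2 * ‖ev h z‖ ^ 2 ≤ (Bf ^ 2 * Bh ^ 2) * (1 + C.sz z ^ (4 * k)) := by
        calc _ ≤ (Bf * C.sz z ^ k) ^ 2 * (Bh * C.sz z ^ k) ^ 2 :=
              mul_le_mul a5 a6 (by positivity) (by positivity)
          _ = (Bf ^ 2 * Bh ^ 2) * C.sz z ^ (4 * k) := by ring
          _ ≤ _ := by
              refine mul_le_mul_of_nonneg_left ?_ (by positivity)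
              linarith
      have a8 : 0 ≤ ‖ev C.J z‖ ^ 2 * κ i z := by positivity
      calc _ = ‖ev f z‖ ^ 2 * ‖ev h z‖ ^ 2 * (‖ev C.J z‖ ^ 2 * κ i z) := by rw [hx]; ring
        _ ≤ _ := mul_le_mul_of_nonneg_right a7 a8
        _ = _ := by ring
    simp only [hG3, norm_mul, norm_star, Complex.norm_real, Real.norm_eq_abs]
    rw [abs_of_pos (Real.exp_pos _), e1]
    have e0 := (Real.exp_pos (-C.u z)).le
    calc _ = (x * y) * Real.exp (-C.u z) := by rw [hx]; ring
      _ ≤ (r * H + x ^ 2 * κ i z / r) * Real.exp (-C.u z) := mul_le_mul_of_nonneg_right key e0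
      _ ≤ (r * H + (Bf ^ 2 * Bh ^ 2) * (κ i z * (1 + C.sz z ^ (4 * k)) *
        ‖ev C.J z‖ ^ 2) / r) * Real.exp (-C.u z) := by
          refine mul_le_mul_of_nonneg_right ?_ e0
          have := div_le_div_of_nonneg_right x2 hr.le
          linarith
      _ = _ := by ring
  have i3 : ∀ (r : ℝ) (i : ℕ), IntegrableOn (fun z =>
      r * (hf (hes C.u z) (fun j => β j z) * Real.exp (-C.u z)) + (Bf ^ 2 * Bh ^ 2 / r) *
        (κ i z * (1 + C.sz z ^ (4 * k)) * Real.exp (-C.u z) * ‖ev C.J z‖ ^ 2)) C.U := fun r i =>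
    (iβ.const_mul r).add (((χ5 (4 * k)).1 i).const_mul _)
  have aeU : ∀ {p : (Fin C.m → ℂ) → Prop}, (∀ z ∈ C.U, p z) → ∀ᵐ z ∂volume.restrict C.U, p z :=
    fun hp => (ae_restrict_iff' hUm).2 (Eventually.of_forall hp)
  have I3 : ∀ i, IntegrableOn (G3 i) C.U := fun i =>
    (i3 1 i).mono' ((c3 i).aestronglyMeasurable hUm) (aeU (b3 1 one_pos i))
  have S3 : ∀ (r : ℝ), 0 < r → ∀ i, ‖∫ z in C.U, G3 i z‖ ≤ r * X + (Bf ^ 2 * Bh ^ 2 / r) * T i := by
    intro r hr i
    refine (norm_integral_le_of_norm_le (i3 r i) (aeU (b3 r hr i))).trans (le_of_eq ?_)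
    rw [integral_add (iβ.const_mul r) (((χ5 (4 * k)).1 i).const_mul _), integral_const_mul,
      integral_const_mul]
  have id0 : ∀ i, ∫ z in C.U, cf (χ i) z * G1 z =
      (∫ z in C.U, cf (χ i) z * G2 z) + ∫ z in C.U, G3 i z := by
    intro i
    set φ : (Fin C.m → ℂ) → ℂ := fun z => cf (χ i) z * (star (ev f z) * (ev h z * ev C.J z))
      with hφ
    have sstar : ContDiffOn ℝ ∞ (fun z => star (ev f z)) Set.univ :=
      (starL' ℝ : ℂ ≃L[ℝ] ℂ).contDiff.comp_contDiffOn (evs f)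
    have sJ : ContDiffOn ℝ ∞ (fun z => ev h z * ev C.J z) Set.univ := (evs h).mul (evs C.J)
    have sG : ContDiffOn ℝ ∞ (fun z => star (ev f z) * (ev h z * ev C.J z)) Set.univ :=
      sstar.mul sJ
    have hol : Differentiable ℂ (fun z => ev h z * ev C.J z) := (ev_an h).1.mul (ev_an C.J).1
    have supp : Function.support φ ⊆ Function.support (χ i) := by
      intro z hz hz'
      apply hz
      simp only [hφ, cf, hz', Complex.ofReal_zero, zero_mul]
    have tsupp : tsupport φ ⊆ tsupport (χ i) := closure_mono supp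
    have tφ : Tst C.U φ := by
      refine ⟨contDiffOn_univ.1 ((sχ i).mul sG), ?_, tsupp.trans (χ1 i).2.2.1⟩
      exact (χ1 i).2.1.mono' (supp.trans subset_closure)
    have w := hWT φ tφ
    unfold inn at w
    have dφ : ∀ j z, db j φ z = db j (cf (χ i)) z * (star (ev f z) * (ev h z * ev C.J z)) +
        cf (χ i) z * (star (ev (MvPolynomial.pderiv j f) z) * (ev h z * ev C.J z)) := by
      intro j z
      have e1 := (cal1 hCAL isOpen_univ (sχ i) sG j (Set.mem_univ z)).2.2.2.1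
      have e2 := (cal1 hCAL isOpen_univ sstar sJ j (Set.mem_univ z)).2.2.2.1
      have e3 := (cal1 hCAL isOpen_univ (evs f) (evs f) j (Set.mem_univ z)).2.2.2.2.2.1
      have e4 := ((hCAL C.m j j _ (fun z => ev h z * ev C.J z) z).2.2.1 (hol z)).1
      rw [dz_pderiv hCAL] at e3
      rw [e4, e3, mul_zero, add_zero] at e2
      rw [e2] at e1
      exact e1
    have cdφ : ∀ j, Continuous (db j φ) := fun j =>
      continuousOn_univ.1 (sdb hCAL isOpen_univ ((sχ i).mul sG) j).continuousOn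
    have zφ : ∀ j z, z ∉ tsupport (χ i) → db j φ z = 0 := by
      intro j z hz
      have e1 : φ =ᶠ[𝓝 z] fun _ => 0 := by
        filter_upwards [(isClosed_tsupport (χ i)).isOpen_compl.mem_nhds hz] with x hx
        by_contra hne
        exact hx (subset_closure (supp hne))
      rw [db_congr e1]
      simp [db]
    have ij : ∀ j, IntegrableOn (fun z => β j z * star (db j φ z) *
        ((Real.exp (-C.u z) : ℝ) : ℂ)) C.U := by
      intro j
      refine icc hU (χ1 i).2.1 (χ1 i).2.2.1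
        (((βc j).mul (cdφ j).star.continuousOn).mul ecc) fun z hz => ?_
      rw [zφ j z hz]
      simp
    rw [← integral_finset_sum _ fun j _ => ij j] at w
    have w1 : ∫ z in C.U, cf (χ i) z * G1 z = ∫ z in C.U, ((g z - c : ℝ) : ℂ) * ev C.J z *
        star (φ z) * ((Real.exp (-C.u z) : ℝ) : ℂ) := by
      congr 1
      funext z
      have e1 : ev C.J z * star (ev C.J z) = ((‖ev C.J z‖ ^ 2 : ℝ) : ℂ) := by
        rw [Complex.ofReal_pow, ← Complex.mul_conj']
        rfl
      have e2 : star (cf (χ i) z) = cf (χ i) z := by simp [cf]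
      simp only [hG1, hφ, star_mul', star_star, e2]
      rw [Complex.ofReal_mul, ← e1]
      ring
    rw [w1, w]
    have i2' : IntegrableOn (fun z => cf (χ i) z * G2 z) C.U := by
      refine icc hU (χ1 i).2.1 (χ1 i).2.2.1
        ((continuousOn_univ.1 (sχ i).continuousOn).continuousOn.mul c2) fun z hz => ?_
      have : χ i z = 0 := by
        by_contra hne
        exact hz (subset_closure hne)
      simp [cf, this]
    rw [← integral_add i2' (I3 i)]
    refine setIntegral_congr_fun hUm fun z hz => ?_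
    simp only [hG2, hG3, dφ]
    rw [← heq z hz]
    have e2 : star (cf (χ i) z) = cf (χ i) z := by simp [cf]
    simp only [star_add, star_mul', star_star, e2, Finset.mul_sum, Finset.sum_mul]
    rw [← Finset.sum_add_distrib]
    refine Finset.sum_congr rfl fun j _ => ?_
    ring
  have lim : ∀ z ∈ C.U, ∀ w : ℂ, Tendsto (fun i => cf (χ i) z * w) atTop (𝓝 w) := by
    intro z hz w
    refine tendsto_const_nhds.congr' ?_
    filter_upwards [χ2 z hz] with i hi
    simp [cf, hi]
  have nχ : ∀ i z (w : ℂ), ‖cf (χ i) z * w‖ ≤ ‖w‖ := by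
    intro i z w
    rw [norm_mul]
    have : ‖cf (χ i) z‖ ≤ 1 := by
      simp only [cf, Complex.norm_real, Real.norm_eq_abs]
      rw [abs_of_nonneg ((χ1 i).2.2.2 z).1]
      exact ((χ1 i).2.2.2 z).2
    exact mul_le_of_le_one_left (norm_nonneg _) this
  have cχ : ∀ i, Continuous (cf (χ i)) := fun i => continuousOn_univ.1 (sχ i).continuousOn
  have L1 : Tendsto (fun i => ∫ z in C.U, cf (χ i) z * G1 z) atTop (𝓝 (∫ z in C.U, G1 z)) := by
    refine tendsto_integral_of_dominated_convergence _ (fun i =>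
      (cχ i).aestronglyMeasurable.mul m1) i1 (fun i => aeU fun z hz => ?_)
      (aeU fun z hz => lim z hz _)
    exact (nχ i z _).trans (b1 z hz)
  have L2 : Tendsto (fun i => ∫ z in C.U, cf (χ i) z * G2 z) atTop (𝓝 (∫ z in C.U, G2 z)) := by
    refine tendsto_integral_of_dominated_convergence _ (fun i =>
      (cχ i).aestronglyMeasurable.mul (c2.aestronglyMeasurable hUm)) i2
      (fun i => aeU fun z hz => ?_) (aeU fun z hz => lim z hz _)
    exact (nχ i z _).trans (b2 z hz)
  have X0 : 0 ≤ X := setIntegral_nonneg hUm fun z hz => mul_nonneg (hf0 z hz) (Real.exp_pos _).le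
  have L3 : Tendsto (fun i => ∫ z in C.U, G3 i z) atTop (𝓝 0) := by
    rw [tendsto_zero_iff_norm_tendsto_zero]
    rw [Metric.tendsto_atTop]
    intro ε hε
    set r : ℝ := ε / (2 * (X + 1)) with hr
    have r0 : 0 < r := by positivity
    have t1 : Tendsto (fun i => (Bf ^ 2 * Bh ^ 2 / r) * T i) atTop (𝓝 0) := by
      have := ((χ5 (4 * k)).2).const_mul (Bf ^ 2 * Bh ^ 2 / r)
      simpa using this
    obtain ⟨N, hN⟩ := (Metric.tendsto_atTop.1 t1) (ε / 2) (by positivity)
    refine ⟨N, fun i hi => ?_⟩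
    have h1 := hN i hi
    rw [Real.dist_eq, sub_zero] at h1
    have h2 := (le_abs_self _).trans_lt h1
    have h3 := S3 r r0 i
    rw [Real.dist_eq, sub_zero, abs_norm]
    have h4 : r * X < ε / 2 := by
      rw [hr, div_mul_eq_mul_div, div_lt_div_iff₀ (by positivity) two_pos]
      nlinarith
    linarith
  have L := L2.add L3
  simp only [← id0, add_zero] at L
  have fin := tendsto_nhds_unique L L1
  exact fin

end Pool.Agent.Helper81.KP
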