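import Pool.Agent.Helper52.KP.StW

set_option autoImplicit false

namespace Pool.Agent.Helper81.KP

open MeasureTheory Filter Pool.Agent.Helper52.KP
open scoped ContDiff ComplexOrder Topology

variable {m : ℕ}

theorem dz_congr {j : Fin m} {f g : (Fin m → ℂ) → ℂ} {z : Fin m → ℂ} (h : f =ᶠ[𝓝 z] g) :
    dz j f z = dz j g z := by
  unfold dz
  rw [h.fderiv_eq]

theorem db_congr {j : Fin m} {f g : (Fin m → ℂ) → ℂ} {z : Fin m → ℂ} (h : f =ᶠ[𝓝 z] g) :
    db j f z = db j g z := by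
  unfold db
  rw [h.fderiv_eq]

theorem db_congr_nhds {j : Fin m} {f g : (Fin m → ℂ) → ℂ} {z : Fin m → ℂ} (h : f =ᶠ[𝓝 z] g) :
    db j f =ᶠ[𝓝 z] db j g := by
  filter_upwards [h.eventuallyEq_nhds] with w hw using db_congr hw

theorem hes_congr {ψ ψ' : (Fin m → ℂ) → ℝ} {z : Fin m → ℂ} (h : ψ =ᶠ[𝓝 z] ψ') :
    hes ψ z = hes ψ' z := by
  have h1 : cf ψ =ᶠ[𝓝 z] cf ψ' := by
    filter_upwards [h] with w hw
    simp [cf, hw]
  ext j k
  simp only [hes, Matrix.of_apply]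
  exact dz_congr (db_congr_nhds h1)

theorem cf_smooth {U : Set (Fin m → ℂ)} {ψ : (Fin m → ℂ) → ℝ} (h : ContDiffOn ℝ ∞ ψ U) :
    ContDiffOn ℝ ∞ (cf ψ) U :=
  Complex.ofRealCLM.contDiff.comp_contDiffOn h

theorem sm_da {U : Set (Fin m → ℂ)} (hU : IsOpen U) {f : (Fin m → ℂ) → ℂ}
    (h : ContDiffOn ℝ ∞ f U) {z : Fin m → ℂ} (hz : z ∈ U) : DifferentiableAt ℝ f z :=
  ((h z hz).contDiffAt (hU.mem_nhds hz)).differentiableAt (by simp)

section Cal

variable (hCAL : StCAL) {U : Set (Fin m → ℂ)} (hU : IsOpen U)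

include hCAL hU

theorem sdz {f : (Fin m → ℂ) → ℂ} (h : ContDiffOn ℝ ∞ f U) (j : Fin m) :
    ContDiffOn ℝ ∞ (dz j f) U :=
  ((hCAL m j j f f 0).2.2.2.2 U hU h).1

theorem sdb {f : (Fin m → ℂ) → ℂ} (h : ContDiffOn ℝ ∞ f U) (j : Fin m) :
    ContDiffOn ℝ ∞ (db j f) U :=
  ((hCAL m j j f f 0).2.2.2.2 U hU h).2

theorem cal1 {f f' : (Fin m → ℂ) → ℂ} (h : ContDiffOn ℝ ∞ f U) (h' : ContDiffOn ℝ ∞ f' U)
    (j : Fin m) {z : Fin m → ℂ} (hz : z ∈ U) :
    dz j (fun z => f z + f' z) z = dz j f z + dz j f' z ∧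
    db j (fun z => f z + f' z) z = db j f z + db j f' z ∧
    dz j (fun z => f z * f' z) z = dz j f z * f' z + f z * dz j f' z ∧
    db j (fun z => f z * f' z) z = db j f z * f' z + f z * db j f' z ∧
    dz j (fun z => star (f z)) z = star (db j f z) ∧
    db j (fun z => star (f z)) z = star (dz j f z) ∧
    dz j (fun z => Complex.exp (f z)) z = Complex.exp (f z) * dz j f z ∧
    db j (fun z => Complex.exp (f z)) z = Complex.exp (f z) * db j f z :=
  (hCAL m j j f f' z).1 (sm_da hU h hz) (sm_da hU h' hz)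

theorem hes_add {ψ ψ' : (Fin m → ℂ) → ℝ}
    (h : ContDiffOn ℝ ∞ ψ U) (h' : ContDiffOn ℝ ∞ ψ' U) {z : Fin m → ℂ} (hz : z ∈ U) :
    hes (fun x => ψ x + ψ' x) z = hes ψ z + hes ψ' z := by
  ext j k
  simp only [hes, Matrix.of_apply, Matrix.add_apply]
  have e : db k (cf fun x => ψ x + ψ' x) =ᶠ[𝓝 z] fun x => db k (cf ψ) x + db k (cf ψ') x := by
    filter_upwards [hU.mem_nhds hz] with w hw
    have := (cal1 hCAL hU (cf_smooth h) (cf_smooth h') k hw).2.1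
    rw [← this]
    congr 1
    funext x
    simp [cf]
  rw [dz_congr e]
  exact (cal1 hCAL hU (sdb hCAL hU (cf_smooth h) k) (sdb hCAL hU (cf_smooth h') k) j hz).1

theorem hes_smul {ψ : (Fin m → ℂ) → ℝ} (s c : ℝ)
    (h : ContDiffOn ℝ ∞ ψ U) {z : Fin m → ℂ} (hz : z ∈ U) :
    hes (fun x => s * ψ x + c) z = (s : ℂ) • hes ψ z := by
  ext j k
  simp only [hes, Matrix.of_apply, Matrix.smul_apply, smul_eq_mul]
  have hs : ContDiffOn ℝ ∞ (fun _ : Fin m → ℂ => (s : ℂ)) U := contDiffOn_const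
  have hc : ContDiffOn ℝ ∞ (fun _ : Fin m → ℂ => (c : ℂ)) U := contDiffOn_const
  have z1 : ∀ (a : ℂ) (i : Fin m) (w : Fin m → ℂ), db i (fun _ : Fin m → ℂ => a) w = 0 := by
    intro a i w
    simp [db]
  have z2 : ∀ (a : ℂ) (i : Fin m) (w : Fin m → ℂ), dz i (fun _ : Fin m → ℂ => a) w = 0 := by
    intro a i w
    simp [dz]
  have e : db k (cf fun x => s * ψ x + c) =ᶠ[𝓝 z] fun x => (s : ℂ) * db k (cf ψ) x := by
    filter_upwards [hU.mem_nhds hz] with w hw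
    have e0 : (cf fun x => s * ψ x + c) = fun x => (s : ℂ) * cf ψ x + (c : ℂ) := by
      funext x
      simp [cf]
    have h1 := (cal1 hCAL hU (hs.mul (cf_smooth h)) hc k hw).2.1
    have h2 := (cal1 hCAL hU hs (cf_smooth h) k hw).2.2.2.1
    rw [e0, h1, h2, z1, z1]
    ring
  rw [dz_congr e, (cal1 hCAL hU hs (sdb hCAL hU (cf_smooth h) k) j hz).2.2.1, z2]
  ring

theorem hes_cont {ψ : (Fin m → ℂ) → ℝ} (h : ContDiffOn ℝ ∞ ψ U) :
    ContinuousOn (fun z => (hes ψ z).det) U := by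
  have h1 : ∀ j k, ContinuousOn (fun z => hes ψ z j k) U := by
    intro j k
    exact (sdz hCAL hU (sdb hCAL hU (cf_smooth h) k) j).continuousOn
  simp only [Matrix.det_apply]
  refine continuousOn_finsetSum _ fun σ _ => ?_
  refine ContinuousOn.const_smul ?_ _
  exact continuousOn_finsetProd _ fun i _ => h1 _ _

theorem dz_sum {N : ℕ} {f : Fin N → (Fin m → ℂ) → ℂ} (h : ∀ i, ContDiffOn ℝ ∞ (f i) U)
    (j : Fin m) {z : Fin m → ℂ} (hz : z ∈ U) :
    dz j (fun z => ∑ i, f i z) z = ∑ i, dz j (f i) z ∧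
    db j (fun z => ∑ i, f i z) z = ∑ i, db j (f i) z := by
  have e := fderiv_fun_sum (𝕜 := ℝ) (u := Finset.univ) (A := f) (x := z)
    (fun i _ => sm_da hU (h i) hz)
  constructor
  · simp only [dz, e, ContinuousLinearMap.sum_apply, Finset.mul_sum]
    rw [← Finset.sum_sub_distrib, Finset.sum_div]
  · simp only [db, e, ContinuousLinearMap.sum_apply, Finset.mul_sum]
    rw [← Finset.sum_add_distrib, Finset.sum_div]

end Cal

end Pool.Agent.Helper81.KP
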