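import Pool.Agent.Helper52.KP.StF

set_option autoImplicit false

namespace Pool.Agent.Helper81.KP

open MeasureTheory Filter Pool.Agent.Helper52.KP Pool.Agent.Helper67.NO
open scoped ContDiff ComplexOrder Topology

universe u

private theorem poly_eq {m : ℕ} (Δ f f' : MvPolynomial (Fin m) ℂ) (hΔ : Δ ≠ 0)
    (h : ∀ z, MvPolynomial.eval z Δ ≠ 0 → MvPolynomial.eval z f = MvPolynomial.eval z f') :
    f = f' := by
  have h1 : Δ * (f - f') = 0 := by
    apply MvPolynomial.funext
    intro z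
    rw [map_mul, map_sub, map_zero]
    by_cases hz : MvPolynomial.eval z Δ = 0
    · rw [hz, zero_mul]
    · rw [h z hz, sub_self, mul_zero]
  rcases mul_eq_zero.1 h1 with h2 | h2
  · exact absurd h2 hΔ
  · exact sub_eq_zero.1 h2

section

variable {g : Type u} [LieRing g] [LieAlgebra ℂ g] [FiniteDimensional ℂ g] {x₀ : g} (C : Ch x₀)

private theorem one_mem : (1 : MvPolynomial (Fin C.m) ℂ) ∈ C.RR 0 := by
  refine ⟨fun _ => 1, ⟨fun x k X => differentiable_const 1, fun x y c _ _ => by simp⟩,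
    fun z hz => ?_⟩
  have hO := C.orb z hz
  simp [ext, hO]

private theorem mul_mem (k k' : ℕ) (f f' : MvPolynomial (Fin C.m) ℂ) (h : f ∈ C.RR k)
    (h' : f' ∈ C.RR k') : f * f' ∈ C.RR (k + k') := by
  obtain ⟨F, hF, hf⟩ := h
  obtain ⟨F', hF', hf'⟩ := h'
  refine ⟨F * F', ⟨fun x p X => (hF.1 x p X).mul (hF'.1 x p X), fun x y c hc hy => ?_⟩,
    fun z hz => ?_⟩
  · rw [Pi.mul_apply, Pi.mul_apply, hF.2 x y c hc hy, hF'.2 x y c hc hy, pow_add]
    ring
  · have hO := C.orb z hz
    rw [map_mul, hf z hz, hf' z hz]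
    simp [ext, hO]

private theorem hom_c (k : ℕ) (f : MvPolynomial (Fin C.m) ℂ) (h : f ∈ C.RR k) (c : ℂ)
    (z : Fin C.m → ℂ) : MvPolynomial.eval (scl C.w c z) f = c ^ k * MvPolynomial.eval z f := by
  obtain ⟨F, hF, hf⟩ := h
  have h1 : ∀ c : ℂ, c ≠ 0 → ∀ z, MvPolynomial.eval (scl C.w c z) f =
      c ^ k * MvPolynomial.eval z f := by
    intro c hc
    have ebind : ∀ z, MvPolynomial.eval z (MvPolynomial.bind₁
        (fun j => MvPolynomial.C (c ^ C.w j) * MvPolynomial.X j) f) =
        MvPolynomial.eval (scl C.w c z) f := by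
      intro z
      rw [← MvPolynomial.coe_aeval_eq_eval, ← MvPolynomial.coe_aeval_eq_eval]
      simp only [RingHom.coe_coe]
      rw [MvPolynomial.aeval_bind₁]
      congr 2
      funext j
      simp [scl]
    have h2 := poly_eq C.Δ (MvPolynomial.bind₁
        (fun j => MvPolynomial.C (c ^ C.w j) * MvPolynomial.X j) f)
        (MvPolynomial.C (c ^ k) * f) C.Δ0 (by
      intro z hz
      rw [ebind, map_mul, MvPolynomial.eval_C]
      have hz' := C.sclU c z hc hz
      have hO := C.orb z hz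
      have hO' := C.orb _ hz'
      rw [hf _ hz', hf z hz]
      have h3 := hF.2 ⟨C.Φ z, hO⟩ ⟨C.Φ (scl C.w c z), hO'⟩ c hc (C.hom c z)
      simp only [ext, hO, hO', dif_pos, h3])
    intro z
    rw [← ebind, h2, map_mul, MvPolynomial.eval_C]
  by_cases hc : c = 0
  · subst hc
    have c1 : Continuous fun c : ℂ => MvPolynomial.eval (scl C.w c z) f := by
      refine (MvPolynomial.continuous_eval f).comp ?_
      unfold scl
      fun_prop
    have c2 : Continuous fun c : ℂ => c ^ k * MvPolynomial.eval z f := by fun_prop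
    have hd : Dense ({0}ᶜ : Set ℂ) := dense_compl_singleton 0
    have := Continuous.ext_on hd c1 c2 fun c hc => h1 c hc z
    exact congrFun this 0
  · exact h1 c hc z

end

/-- MODULE FF1 -/
theorem hFF1 : StFF1.{u} := by
  intro g _ _ _ _ x₀ hx₀ hnil C ρ y rd K hK
  subst hK
  exact ⟨fun c hc z hz => C.sclU c z hc hz, one_mem C, mul_mem C, fun k f hf c z =>
    hom_c C k f hf c z, fun f f' h => poly_eq C.Δ f f' C.Δ0 fun z hz => h z hz⟩

end Pool.Agent.Helper81.KP
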